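import Mathlib
import Pool.Agent.H251.SP.Stm
import Pool.Agent.H527.ME.Stm

/-!
# Power saving in the Elliott-Halberstam sums of `μ` and `λ` over `F_q[X]`, `q` even, for the moduli of
degree between `(3 / 4 + ε) n` and `(1 - ε) n` (helper527, project PT): statements of the parts

helper251's estimate for type II sums `∑ α A β B μ(A B + h)`, `A` irreducible of degree `j < n / 4`,
holds for all squarefree `A` prime to `h`: primality of `A` is only used for the discriminant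
`(m A h)' A' ^ 2 - (m A' h)' A ^ 2 ≠ 0` (task VNE).  Then `k = s t`, `t` squarefree and prime to `s h`,
`s` small, gives `∑_M |∑_k μ(M k + h)|` with a power saving.
-/

set_option autoImplicit false

namespace Pool.Agent.H527.PT

open Polynomial Finset
open scoped Classical
open Pool.Agent.H985.Chow (mob)
open Pool.Agent.H985.KP (mobg)
open Pool.Agent.H694.Typ (Mn Irn)
open Pool.Agent.H251.SP (lam S_fb S_bf Gw S_ls1 S_ls2)
open Pool.Agent.H527.ME (dv S_ch)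

/-- A set of monic squarefree polynomials of degree `j` prime to `h`. -/
def Adm {K : Type} [Field K] (j : ℕ) (h : K[X]) (S : Finset K[X]) : Prop :=
  ∀ A ∈ S, A.Monic ∧ A.natDegree = j ∧ Squarefree A ∧ IsCoprime A h

/-- **Task VNE.**  Copy of `WM1L.VV_ne` in `H251/SP/WM1.lean` without irreducibility of `A`: if both
sides are equal, every prime `P` of `A` divides `A'` (otherwise `A = P B`, `P ∤ B`, and
`P ∣ derivative (m A h) = P' (m B h) + P (..)'`, but `P` divides none of `P'`, `m`, `B`, `h`), so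
`A ∣ A'` as `A` is squarefree, so `A = A'`. -/
def S_vne : Prop :=
  ∀ (K : Type) [Field K] [Fintype K] [CharP K 2] (m h A A' : K[X]), m.Monic → Irreducible m →
    A.Monic → A'.Monic → A.natDegree = A'.natDegree → Squarefree A → Squarefree A' →
    IsCoprime A h → IsCoprime A' h → ¬ m ∣ A → ¬ m ∣ A' → A ≠ A' →
    derivative (m * A * h) * A' ^ 2 ≠ derivative (m * A' * h) * A ^ 2

/-- **Task WM1.**  `S_wm1` (`H251/SP/WM1.lean`) with a set `S` of squarefree `A` instead of the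
irreducible `A` not dividing `h`. -/
def S_wm1g : Prop :=
  ∀ (K : Type) [Field K] [Fintype K] [CharP K 2], ∃ C : ℕ, ∀ (n L j u a : ℕ) (h m : K[X])
    (S : Finset K[X]),
    2 * L + j + u = n + 1 → 1 ≤ L → 4 ≤ u → u < j → j < a → 4 * a ≤ n → h ≠ 0 →
    h.natDegree < n → m ∈ Irn K u → Adm j h S → (∀ A ∈ S, ¬ m ∣ A) →
    ∑ f ∈ Mn K (n - j), (∑ A ∈ S, (Gw a m A h f - 1)) ^ 2 ≤
      (n : ℝ) ^ C * (Fintype.card K : ℝ) ^ (n + j) * (Fintype.card K : ℝ) ^ (-(j : ℝ) / 2)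

/-- **Task WM2.**  `S_wm2` (`H251/SP/Wm2.lean`) with a set `S` of squarefree `A`. -/
def S_wm2g : Prop :=
  ∀ (K : Type) [Field K] [Fintype K] [CharP K 2], ∃ C : ℕ, ∀ (n L j u a : ℕ) (h m m' : K[X])
    (S : Finset K[X]),
    2 * L + j + u = n + 1 → 1 ≤ L → 4 ≤ u → u < j → j < a → 4 * a ≤ n → h ≠ 0 →
    h.natDegree < n → m ∈ Irn K u → m' ∈ Irn K u → m ≠ m' → Adm j h S →
    (∀ A ∈ S, ¬ m ∣ A) → (∀ A ∈ S, ¬ m' ∣ A) →
    ∑ f ∈ Mn K (n - j), (∑ A ∈ S, (Gw a m A h f - 1) * (Gw a m' A h f - 1)) ^ 2 ≤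
      (n : ℝ) ^ C * (Fintype.card K : ℝ) ^ (n + j) *
        ((Fintype.card K : ℝ) ^ ((u : ℝ) - j) + (Fintype.card K : ℝ) ^ (4 * (a : ℝ) - n))

/-- The weight, `1` if `m ∣ A`. -/
noncomputable def Gv {K : Type} [Field K] [Fintype K] (a : ℕ) (m A h f : K[X]) : ℝ :=
  if m ∣ A then 1 else Gw a m A h f

/-- **Task WM.**  `S_wm` (`H251/SP/WM.lean`) with a set `S` of squarefree `A` and the weights `Gv`.
The abstract theorem `WM.moment` there applies with `g m A f = Gv a m A h f`: `Gv - 1 = 0` for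
`m ∣ A`, so `h1`, `h2` follow from `S_wm1g`, `S_wm2g` for the subset of the `A ∈ S` not divisible by
`m` (and `m'`). -/
def S_wmg : Prop :=
  ∀ (K : Type) [Field K] [Fintype K] [CharP K 2], ∃ C : ℕ, ∀ (n L j u a : ℕ) (h : K[X])
    (S : Finset K[X]),
    2 * L + j + u = n + 1 → 1 ≤ L → 4 ≤ u → u < j → j < a → 4 * a ≤ n → h ≠ 0 →
    h.natDegree < n → Adm j h S →
    ∑ A₁ ∈ S, ∑ A₂ ∈ S, ∑ f ∈ Mn K (n - j),
        (1 - (∑ m ∈ Irn K u, Gv a m A₁ h f * Gv a m A₂ h f) / ((Irn K u).card : ℝ)) ^ 2 ≤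
      (n : ℝ) ^ C * (Fintype.card K : ℝ) ^ (n + j) *
        ((Fintype.card K : ℝ) ^ (((u : ℝ) - j) / 4) + (Fintype.card K : ℝ) ^ (-(u : ℝ)) +
          (Fintype.card K : ℝ) ^ (2 * (a : ℝ) - n / 2))

/-- **Task TII.**  `S_tii` (`H251/SP/TIIa.lean`, `TII.lean`) with a set `S` of squarefree `A`.  In
`V_bound` the at most `2 j` multipliers `m` dividing `A₁ A₂` are estimated trivially (weights at most
`36 n ^ 4`): a loss of `2 j * 36 n ^ 4 / card (Irn K u)`, and `card (Irn K u) ≥ q ^ u / (2 u)`. -/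
def S_tiig : Prop :=
  ∀ (K : Type) [Field K] [Fintype K] [CharP K 2] (ε : ℝ), 0 < ε →
    ∃ (C : ℕ) (c : ℝ), 0 < c ∧ ∃ n₀ : ℕ, ∀ n : ℕ, n₀ ≤ n →
    ∀ (j : ℕ) (h g : K[X]) (S : Finset K[X]) (α β : K[X] → ℝ), 1 ≤ j →
      (j : ℝ) ≤ (1 / 4 - ε) * n → h ≠ 0 →
      h.natDegree < n → g.Monic → (g.natDegree : ℝ) ≤ c * n → Adm j h S → (∀ p, |α p| ≤ 1) →
      (∀ B, |β B| ≤ 1) →
      |∑ p ∈ S, ∑ B ∈ Mn K (n - j), α p * β B * (mobg g (p * B + h) : ℝ)| ≤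
        (n : ℝ) ^ C * (Fintype.card K : ℝ) ^ n *
          ((Fintype.card K : ℝ) ^ (-(j : ℝ) / 32) + (Fintype.card K : ℝ) ^ (-c * n))

/-- **Task DVB.**  The divisor bound: `B` has at most `q ^ (δ n)` monic divisors of degree `r`
(`dv r B`) if `deg B ≤ 2 n`. -/
def S_dvb : Prop :=
  ∀ (K : Type) [Field K] [Fintype K] (δ : ℝ), 0 < δ → ∃ n₀ : ℕ, ∀ n : ℕ, n₀ ≤ n →
    ∀ (B : K[X]) (r : ℕ), B ≠ 0 → B.natDegree ≤ 2 * n →
      (dv r B : ℝ) ≤ (Fintype.card K : ℝ) ^ (δ * n)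

/-- Every prime divisor of `s` not dividing `h` divides `s` twice. -/
def Sp {K : Type} [Field K] (h s : K[X]) : Prop :=
  ∀ P : K[X], P.Monic → Irreducible P → P ∣ s → ¬ P ∣ h → P ^ 2 ∣ s

/-- **Task DEN.**  The number of the `s` of degree `i` with `Sp h s`.  `s = e v ^ 2` with `e`
squarefree, and `e ∣ h v` (a prime of `e` has an odd exponent in `s`; if it does not divide `h` the
exponent is at least `3`, so it divides `v`): for given `v` at most `dv (i - 2 deg v) (h v)` values of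
`e` (`S_dvb`), and there are `q ^ l` polynomials `v` of degree `l ≤ i / 2`. -/
def S_den : Prop :=
  ∀ (K : Type) [Field K] [Fintype K] (δ : ℝ), 0 < δ → ∃ n₀ : ℕ, ∀ n : ℕ, n₀ ≤ n →
    ∀ (h : K[X]) (i : ℕ), h ≠ 0 → h.natDegree ≤ n → i ≤ n →
      (((Mn K i).filter (fun s => Sp h s)).card : ℝ) ≤
        (Fintype.card K : ℝ) ^ ((i : ℝ) / 2 + δ * n)

/-- **Task DEC.**  Every monic `k` is `s t` with unique monic `s`, `t` such that `Sp h s` holds and `t`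
is squarefree and prime to `s h`: `t` is the product of the monic primes `P` with `P ∣ k`,
`¬ P ^ 2 ∣ k`, `¬ P ∣ h`. -/
def S_dec : Prop :=
  ∀ (K : Type) [Field K] [Fintype K] (r : ℕ) (h : K[X]) (φ : K[X] → ℝ), h ≠ 0 →
    ∑ k ∈ Mn K r, φ k = ∑ i ∈ range (r + 1), ∑ s ∈ (Mn K i).filter (fun s => Sp h s),
      ∑ t ∈ (Mn K (r - i)).filter (fun t => Squarefree t ∧ IsCoprime t (s * h)), φ (s * t)

/-- **Task MOD.**  Moduli, for `μ(F / g ^ 2)`. -/
def S_mod : Prop :=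
  ∀ (K : Type) [Field K] [Fintype K] [CharP K 2] (ε : ℝ), 0 < ε →
    ∃ c : ℝ, 0 < c ∧ ∃ n₀ : ℕ, ∀ n : ℕ, n₀ ≤ n → ∀ (d : ℕ) (h g : K[X]),
      (3 / 4 + ε) * n ≤ d → (d : ℝ) ≤ (1 - ε) * n → h ≠ 0 → h.natDegree < n → g.Monic →
      (g.natDegree : ℝ) ≤ c * n →
      ∑ M ∈ Mn K d, |∑ k ∈ Mn K (n - d), (mobg g (M * k + h) : ℝ)| ≤
        (Fintype.card K : ℝ) ^ ((1 - c) * n)

/-- The power saving for the function `a` on `K[X]`, one class. -/
def S_mda (a : ∀ (K : Type) [Field K], K[X] → ℤ) : Prop :=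
  ∀ (K : Type) [Field K] [Fintype K] [CharP K 2] (ε : ℝ), 0 < ε →
    ∃ c : ℝ, 0 < c ∧ ∃ n₀ : ℕ, ∀ n : ℕ, n₀ ≤ n → ∀ (d : ℕ) (h : K[X]),
      (3 / 4 + ε) * n ≤ d → (d : ℝ) ≤ (1 - ε) * n → h ≠ 0 → h.natDegree < n →
      ∑ M ∈ Mn K d, |∑ k ∈ Mn K (n - d), (a K (M * k + h) : ℝ)| ≤
        (Fintype.card K : ℝ) ^ ((1 - c) * n)

/-- The power saving with the maximum over the classes `h ∈ H` and the degrees `m ≤ n`. -/
def S_three (a : ∀ (K : Type) [Field K], K[X] → ℤ) : Prop :=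
  ∀ (K : Type) [Field K] [Fintype K] [CharP K 2] (ε : ℝ), 0 < ε → ∃ C c : ℝ, 0 < C ∧ 0 < c ∧
    ∀ (n d : ℕ) (H : Finset K[X]) (hh : K[X] → K[X]) (mm : K[X] → ℕ), 2 ≤ n → d < n →
      (3 / 4 + ε) * n ≤ d → (d : ℝ) ≤ (1 - ε) * n → (∀ h ∈ H, h ≠ 0 ∧ h.natDegree < d) →
      (∀ M, hh M ∈ H) → (∀ M, mm M ≤ n) →
      ∑ M ∈ Mn K d, |∑ F ∈ (Mn K (mm M)).filter (fun F => M ∣ F - hh M), (a K F : ℝ)| ≤
        C * H.card * (Fintype.card K : ℝ) ^ ((1 - c) * n)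

/-- **Task WM1.** -/
def S_awm1 : Prop := S_vne → S_ls1 → S_wm1g

/-- **Task WM2.** -/
def S_awm2 : Prop := S_vne → S_ls2 → S_wm2g

/-- **Task WM.** -/
def S_awm : Prop := S_wm1g → S_wm2g → S_wmg

/-- **Task TII.** -/
def S_atii : Prop := S_vne → S_fb → S_bf → S_wmg → S_tiig

/-- **Task DEN.** -/
def S_aden : Prop := S_dvb → S_den

/-- **Task MOD.**  `r = n - d`, `θ` small (`ε / 100`, `c / 8`).  `k = s t` (`S_dec`), `i = deg s`.
`i > θ n`: trivial bound `q ^ d * q ^ (i / 2 + δ n) * q ^ (r - i)` (`S_den`, `δ = θ / 8`).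
`i ≤ θ n`: for every `s` the sum `∑_M u M ∑_t μ(M s t + h)` is `∑_{t ∈ S} ∑_B β B μ(t B + h)`,
`B = M s` of degree `d + i = n - (r - i)`, `β B = u M` if `B = M s` and `0` if `s ∤ B`: `S_tiig` with
`j = r - i`, and there are at most `q ^ i` polynomials `s`. -/
def S_amod : Prop := S_tiig → S_dec → S_den → S_mod

/-- **Task LAM.**  `lam F = ∑ mobg g F` over the monic `g` with `2 deg g ≤ n` (see the proof of
`H251/SP/Lam.lean`).  `deg g ≤ c n / 2`: `S_mod`.  The others: every `F = M k + h` comes from at most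
`dv (n - d) (F - h) ≤ q ^ (δ n)` pairs (`S_dvb`; `F - h ≠ 0`), and there are `q ^ (n - 2 i)`
polynomials `F` of degree `n` divisible by `g ^ 2`, `deg g = i`. -/
def S_alam : Prop := S_mod → S_dvb → S_mda Pool.Agent.H527.ME.lamF

/-- **Task FIN.**  `S_ch` with `z = 1`, `wf m = m - d`, `s = ⌊ε n / 4⌋` (`om 1 j k ≠ 0` for
`k` of degree `j ≥ 1`, so `exc K 1 j j = 0`), `S_mda a` with `ε / 2` for the degrees `m ∈ (n - s, n]`;
for `n` below the bound `n₀` the sum is at most `q ^ (n + 1)` (or `q ^ n`) and `H` is not empty, take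
`C` large. -/
def S_afin : Prop :=
  S_ch → ∀ a : (∀ (K : Type) [Field K], K[X] → ℤ),
    (∀ (K : Type) [Field K] (F : K[X]), |(a K F : ℝ)| ≤ 1) → S_mda a → S_three a

end Pool.Agent.H527.PT
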