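import Mathlib
import Pool.Agent.H527.PT.Stm

/-!
# Task DEC of project PT (helper527), by helper296

A monic `k` is `s t` with `t` squarefree, prime to `s h`, and every prime divisor of `s` that does not
divide `h` divides `s` twice, in exactly one way: `t` is the product of the monic irreducible `P` with
`P ∣ k`, `P ^ 2 ∤ k`, `P ∤ h`.
-/

set_option autoImplicit false

namespace Pool.Agent.H527.PT

open Polynomial Finset
open scoped Classical
open Pool.Agent.H694.Typ (Mn mem_Mn)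

namespace DECAux

variable {K : Type} [Field K]

/-- The squarefree part of `k` prime to `h`. -/
noncomputable def TT (h k : K[X]) : K[X] :=
  ∏ P ∈ (UniqueFactorizationMonoid.normalizedFactors k).toFinset.filter
    (fun P => ¬ P ^ 2 ∣ k ∧ ¬ P ∣ h), P

theorem eq_of_dvd {P Q : K[X]} (hP : P.Monic) (hQ : Q.Monic) (iP : Irreducible P)
    (iQ : Irreducible Q) (hd : P ∣ Q) : P = Q :=
  eq_of_monic_of_associated hP hQ (iP.associated_of_dvd iQ hd)

theorem mem_nf {k P : K[X]} (hk : k ≠ 0) :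
    P ∈ UniqueFactorizationMonoid.normalizedFactors k ↔
      Irreducible P ∧ P.Monic ∧ P ∣ k := by
  rw [UniqueFactorizationMonoid.mem_normalizedFactors_iff' hk]
  constructor
  · rintro ⟨h1, h2, h3⟩
    refine ⟨h1, ?_, h3⟩
    rw [← h2]
    exact Polynomial.monic_normalize h1.ne_zero
  · rintro ⟨h1, h2, h3⟩
    exact ⟨h1, h2.normalize_eq_self, h3⟩

theorem mem_fac {k P : K[X]} (hk : k ≠ 0) :
    P ∈ (UniqueFactorizationMonoid.normalizedFactors k).toFinset ↔
      Irreducible P ∧ P.Monic ∧ P ∣ k := by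
  rw [Multiset.mem_toFinset, mem_nf hk]

theorem dvd_TT {h k P : K[X]} (hk : k ≠ 0) (hP : P.Monic) (iP : Irreducible P) :
    P ∣ TT h k ↔ P ∣ k ∧ ¬ P ^ 2 ∣ k ∧ ¬ P ∣ h := by
  unfold TT
  rw [Prime.dvd_finsetProd_iff iP.prime]
  constructor
  · rintro ⟨Q, hQ, hd⟩
    rw [Finset.mem_filter, mem_fac hk] at hQ
    have := eq_of_dvd hP hQ.1.2.1 iP hQ.1.1 hd
    subst this
    exact ⟨hQ.1.2.2, hQ.2.1, hQ.2.2⟩
  · rintro ⟨h1, h2, h3⟩
    refine ⟨P, ?_, dvd_refl P⟩
    rw [Finset.mem_filter, mem_fac hk]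
    exact ⟨⟨iP, hP, h1⟩, h2, h3⟩

theorem TT_monic {h k : K[X]} (hk : k ≠ 0) : (TT h k).Monic := by
  unfold TT
  refine monic_prod_of_monic _ _ (fun P hP => ?_)
  rw [Finset.mem_filter, mem_fac hk] at hP
  exact hP.1.2.1

theorem pw {h k : K[X]} (hk : k ≠ 0) :
    (((UniqueFactorizationMonoid.normalizedFactors k).toFinset.filter
      (fun P => ¬ P ^ 2 ∣ k ∧ ¬ P ∣ h) : Finset K[X]) : Set K[X]).Pairwise
      (Function.onFun IsCoprime (fun P : K[X] => P)) := by
  intro P hP Q hQ hne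
  rw [Finset.mem_coe, Finset.mem_filter, mem_fac hk] at hP hQ
  refine (hP.1.1.coprime_iff_not_dvd).2 (fun hd => hne ?_)
  exact eq_of_dvd hP.1.2.1 hQ.1.2.1 hP.1.1 hQ.1.1 hd

theorem TT_dvd {h k : K[X]} (hk : k ≠ 0) : TT h k ∣ k := by
  unfold TT
  refine Finset.prod_dvd_of_coprime (pw hk) (fun P hP => ?_)
  rw [Finset.mem_filter, mem_fac hk] at hP
  exact hP.1.2.2

theorem coprime_of {a b : K[X]}
    (H : ∀ P : K[X], P.Monic → Irreducible P → P ∣ a → P ∣ b → False) : IsCoprime a b := by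
  rw [← EuclideanDomain.gcd_isUnit_iff]
  by_contra hu
  obtain ⟨P, hP, iP, hd⟩ := Polynomial.exists_monic_irreducible_factor _ hu
  exact H P hP iP (hd.trans (EuclideanDomain.gcd_dvd_left a b))
    (hd.trans (EuclideanDomain.gcd_dvd_right a b))

theorem squarefree_of {a : K[X]} (ha : a ≠ 0)
    (H : ∀ P : K[X], P.Monic → Irreducible P → P ∣ a → ¬ P ^ 2 ∣ a) : Squarefree a := by
  rw [squarefree_iff_no_irreducibles ha]
  intro P iP hd
  have hn : Associated P (normalize P) := (normalize_associated P).symm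
  have hm : (normalize P).Monic := Polynomial.monic_normalize iP.ne_zero
  have hi : Irreducible (normalize P) := hn.irreducible iP
  have h2 : normalize P ^ 2 ∣ a := by
    rw [pow_two]
    exact (mul_dvd_mul hn.symm.dvd hn.symm.dvd).trans hd
  exact H _ hm hi ((Dvd.intro_left (normalize P) (pow_two (normalize P)).symm).trans h2) h2

theorem TT_sq {h k : K[X]} (hk : k ≠ 0) : Squarefree (TT h k) := by
  refine squarefree_of (TT_monic hk).ne_zero (fun P hP iP hd hd2 => ?_)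
  exact ((dvd_TT hk hP iP).1 hd).2.1 (hd2.trans (TT_dvd hk))

/-- The properties of the decomposition `k = s t`. -/
structure Dc (h s t : K[X]) : Prop where
  ms : s.Monic
  mt : t.Monic
  sp : Sp h s
  sq : Squarefree t
  co : IsCoprime t (s * h)

/-- The other factor. -/
noncomputable def SS (h k : K[X]) : K[X] := k / TT h k

theorem SS_mul {h k : K[X]} (hk : k ≠ 0) : SS h k * TT h k = k := by
  unfold SS
  rw [mul_comm]
  exact EuclideanDomain.mul_div_cancel' (TT_monic hk).ne_zero (TT_dvd hk)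

theorem dc {h k : K[X]} (hk : k.Monic) : Dc h (SS h k) (TT h k) := by
  have hk0 := hk.ne_zero
  have hm := SS_mul (h := h) hk0
  have mT := TT_monic (h := h) hk0
  have ms : (SS h k).Monic := by
    have : (SS h k * TT h k).Monic := by rw [hm]; exact hk
    exact mT.of_mul_monic_right this
  refine ⟨ms, mT, ?_, TT_sq hk0, ?_⟩
  · intro P hP iP hs hh
    have hPk : P ∣ k := by
      rw [← hm]
      exact Dvd.dvd.mul_right hs _
    have hPT : ¬ P ∣ TT h k := by
      intro hT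
      refine ((dvd_TT hk0 hP iP).1 hT).2.1 ?_
      rw [← hm, pow_two]
      exact mul_dvd_mul hs hT
    have hP2 : P ^ 2 ∣ k := by
      by_contra hn
      exact hPT ((dvd_TT hk0 hP iP).2 ⟨hPk, hn, hh⟩)
    have hc : IsCoprime (P ^ 2) (TT h k) :=
      IsCoprime.pow_left ((iP.coprime_iff_not_dvd).2 hPT)
    rw [← hm] at hP2
    exact hc.dvd_of_dvd_mul_right hP2
  · refine coprime_of (fun P hP iP hT hsh => ?_)
    obtain ⟨_, h2, h3⟩ := (dvd_TT hk0 hP iP).1 hT
    rcases iP.prime.dvd_or_dvd hsh with h4 | h4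
    · apply h2
      rw [← hm, pow_two]
      exact mul_dvd_mul h4 hT
    · exact h3 h4

theorem dvd_t {h s t P : K[X]} (D : Dc h s t) (hP : P.Monic) (iP : Irreducible P) :
    P ∣ t ↔ P ∣ s * t ∧ ¬ P ^ 2 ∣ s * t ∧ ¬ P ∣ h := by
  constructor
  · intro hd
    have hcs : ¬ P ∣ s := fun hs =>
      iP.not_isUnit (D.co.isUnit_of_dvd' hd (Dvd.dvd.mul_right hs _))
    have hch : ¬ P ∣ h := fun hs =>
      iP.not_isUnit (D.co.isUnit_of_dvd' hd (Dvd.dvd.mul_left hs _))
    refine ⟨Dvd.dvd.mul_left hd _, fun h2 => ?_, hch⟩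
    have hc : IsCoprime (P ^ 2) s := IsCoprime.pow_left ((iP.coprime_iff_not_dvd).2 hcs)
    have h3 : P ^ 2 ∣ t := hc.dvd_of_dvd_mul_left h2
    rw [pow_two] at h3
    exact iP.not_isUnit (D.sq P h3)
  · rintro ⟨h1, h2, h3⟩
    rcases iP.prime.dvd_or_dvd h1 with h4 | h4
    · exact absurd ((D.sp P hP iP h4 h3).trans (dvd_mul_right s t)) h2
    · exact h4

theorem eq_of_sq {t t' : K[X]} (mt : t.Monic) (mt' : t'.Monic) (st : Squarefree t)
    (st' : Squarefree t')
    (H : ∀ P : K[X], P.Monic → Irreducible P → (P ∣ t ↔ P ∣ t')) : t = t' := by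
  have hA : Associated t t' := by
    rw [UniqueFactorizationMonoid.associated_iff_normalizedFactors_eq_normalizedFactors
      mt.ne_zero mt'.ne_zero]
    refine (Multiset.Nodup.ext
      ((UniqueFactorizationMonoid.squarefree_iff_nodup_normalizedFactors mt.ne_zero).1 st)
      ((UniqueFactorizationMonoid.squarefree_iff_nodup_normalizedFactors mt'.ne_zero).1 st')).2
      (fun P => ?_)
    rw [mem_nf mt.ne_zero, mem_nf mt'.ne_zero]
    constructor
    · rintro ⟨h1, h2, h3⟩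
      exact ⟨h1, h2, (H P h2 h1).1 h3⟩
    · rintro ⟨h1, h2, h3⟩
      exact ⟨h1, h2, (H P h2 h1).2 h3⟩
  exact eq_of_monic_of_associated mt mt' hA

theorem TT_eq {h s t : K[X]} (D : Dc h s t) : TT h (s * t) = t := by
  have hm : (s * t).Monic := D.ms.mul D.mt
  refine eq_of_sq (TT_monic hm.ne_zero) D.mt (TT_sq hm.ne_zero) D.sq (fun P hP iP => ?_)
  rw [dvd_TT hm.ne_zero hP iP, dvd_t D hP iP]

theorem SS_eq {h s t : K[X]} (D : Dc h s t) : SS h (s * t) = s := by
  have hm : (s * t).Monic := D.ms.mul D.mt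
  have h1 := SS_mul (h := h) hm.ne_zero
  rw [TT_eq D] at h1
  exact mul_right_cancel₀ D.mt.ne_zero h1

end DECAux

/-- **Task DEC.** -/
theorem dec : S_dec := by
  intro K _ _ r h φ _
  have e : ∑ i ∈ range (r + 1), ∑ s ∈ (Mn K i).filter (fun s => Sp h s),
      ∑ t ∈ (Mn K (r - i)).filter (fun t => Squarefree t ∧ IsCoprime t (s * h)), φ (s * t) =
      ∑ x ∈ (range (r + 1)).sigma (fun i => ((Mn K i).filter (fun s => Sp h s)).sigma
        (fun s => (Mn K (r - i)).filter (fun t => Squarefree t ∧ IsCoprime t (s * h)))),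
        φ (x.2.1 * x.2.2) := by
    rw [Finset.sum_sigma]
    refine Finset.sum_congr rfl (fun i _ => ?_)
    rw [Finset.sum_sigma]
  rw [e]
  refine Finset.sum_bij'
    (fun k _ => (⟨(DECAux.SS h k).natDegree, DECAux.SS h k, DECAux.TT h k⟩ :
      (_ : ℕ) × (_ : K[X]) × K[X]))
    (fun x _ => x.2.1 * x.2.2) ?_ ?_ ?_ ?_ ?_
  · intro k hk
    rw [mem_Mn] at hk
    have D := DECAux.dc (h := h) hk.1
    have hm := DECAux.SS_mul (h := h) hk.1.ne_zero
    have hdeg : (DECAux.SS h k).natDegree + (DECAux.TT h k).natDegree = r := by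
      rw [← D.ms.natDegree_mul D.mt, hm]
      exact hk.2
    simp only [Finset.mem_sigma, Finset.mem_range, Finset.mem_filter, mem_Mn]
    exact ⟨by omega, ⟨⟨D.ms, trivial⟩, D.sp⟩, ⟨D.mt, by omega⟩, D.sq, D.co⟩
  · intro x hx
    simp only [Finset.mem_sigma, Finset.mem_range, Finset.mem_filter, mem_Mn] at hx
    obtain ⟨h1, ⟨⟨h2, h3⟩, _⟩, ⟨h5, h6⟩, _, _⟩ := hx
    rw [mem_Mn]
    refine ⟨h2.mul h5, ?_⟩
    rw [h2.natDegree_mul h5, h3, h6]
    omega
  · intro k hk
    rw [mem_Mn] at hk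
    exact DECAux.SS_mul hk.1.ne_zero
  · intro x hx
    simp only [Finset.mem_sigma, Finset.mem_range, Finset.mem_filter, mem_Mn] at hx
    obtain ⟨h1, ⟨⟨h2, h3⟩, h4⟩, ⟨h5, h6⟩, h7, h8⟩ := hx
    have D : DECAux.Dc h x.2.1 x.2.2 := ⟨h2, h5, h4, h7, h8⟩
    obtain ⟨i, s, t⟩ := x
    simp only at h3 D ⊢
    rw [DECAux.SS_eq D, DECAux.TT_eq D, h3]
  · intro k hk
    rw [mem_Mn] at hk
    simp only
    rw [DECAux.SS_mul hk.1.ne_zero]

end Pool.Agent.H527.PT
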