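import Pool.Agent.H527.PT.Stm

/-!
# Task DEN: few `s` with `Sp h s` (helper205)
-/

set_option autoImplicit false

namespace Pool.Agent.H527.PT

open Polynomial Finset
open scoped Classical
open Pool.Agent.H694.Typ (Mn Irn mem_Mn card_Mn q_ge)
open Pool.Agent.H527.ME (dv)

namespace DENAux

variable {K : Type} [Field K]

/-- every monic polynomial is a monic squarefree polynomial times the square of a monic one -/
theorem exists_sq (N : ℕ) : ∀ s : K[X], s.Monic → s.natDegree ≤ N →
    ∃ e v : K[X], e.Monic ∧ v.Monic ∧ Squarefree e ∧ s = e * v ^ 2 := by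
  induction N with
  | zero =>
    intro s hs hd
    have h1 : s = 1 := hs.natDegree_eq_zero.1 (Nat.le_zero.1 hd)
    exact ⟨1, 1, monic_one, monic_one, squarefree_one, by rw [h1]; ring⟩
  | succ N ih =>
    intro s hs hd
    by_cases hsq : Squarefree s
    · exact ⟨s, 1, hs, monic_one, hsq, by ring⟩
    · unfold Squarefree at hsq
      push Not at hsq
      obtain ⟨x, hx, hxu⟩ := hsq
      have hx0 : x ≠ 0 := by
        rintro rfl
        rw [zero_mul, zero_dvd_iff] at hx
        exact hs.ne_zero hx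
      set y : K[X] := x * C x.leadingCoeff⁻¹ with hy
      have hym : y.Monic := monic_mul_leadingCoeff_inv hx0
      have hlc : x.leadingCoeff ≠ 0 := leadingCoeff_ne_zero.2 hx0
      have hyx : y * y ∣ x * x := by
        refine ⟨C x.leadingCoeff * C x.leadingCoeff, ?_⟩
        rw [hy]
        have h1 : C x.leadingCoeff⁻¹ * C x.leadingCoeff = 1 := by
          rw [← C_mul, inv_mul_cancel₀ hlc, C_1]
        calc x * x = x * x * (C x.leadingCoeff⁻¹ * C x.leadingCoeff) *
              (C x.leadingCoeff⁻¹ * C x.leadingCoeff) := by rw [h1, mul_one, mul_one]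
          _ = _ := by ring
      obtain ⟨w, hw⟩ := hyx.trans hx
      have hyy : (y * y).Monic := hym.mul hym
      have hwm : w.Monic := by
        rw [hw] at hs
        exact hyy.of_mul_monic_left hs
      have hdx : 1 ≤ y.natDegree := by
        rcases Nat.eq_zero_or_pos y.natDegree with h | h
        · exfalso
          apply hxu
          have h1 : y = 1 := hym.natDegree_eq_zero.1 h
          exact IsUnit.of_mul_eq_one _ (hy ▸ h1)
        · exact h
      have hdw : w.natDegree ≤ N := by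
        have h1 : s.natDegree = (y * y).natDegree + w.natDegree := by
          rw [hw, hyy.natDegree_mul hwm]
        rw [hym.natDegree_mul hym] at h1
        omega
      obtain ⟨e, v, he, hv, hesq, hev⟩ := ih w hwm hdw
      refine ⟨e, y * v, he, hym.mul hv, hesq, ?_⟩
      rw [hw, hev]
      ring

/-- the squarefree part divides `h v` -/
theorem dvd_hv {h s e v : K[X]} (hh : h ≠ 0) (he : e.Monic) (hv : v.Monic) (hsq : Squarefree e)
    (hs : s = e * v ^ 2) (hSp : Sp h s) : e ∣ h * v := by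
  have hhv : h * v ≠ 0 := mul_ne_zero hh hv.ne_zero
  rw [UniqueFactorizationMonoid.dvd_iff_normalizedFactors_le_normalizedFactors he.ne_zero hhv]
  rw [Multiset.le_iff_subset
    ((UniqueFactorizationMonoid.squarefree_iff_nodup_normalizedFactors he.ne_zero).1 hsq)]
  intro P hP
  have hirr := UniqueFactorizationMonoid.irreducible_of_normalized_factor P hP
  have hPe := UniqueFactorizationMonoid.dvd_of_mem_normalizedFactors hP
  have hnorm := UniqueFactorizationMonoid.normalize_normalized_factor P hP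
  have hPm : P.Monic := by
    rw [← hnorm]
    exact monic_normalize hirr.ne_zero
  have hprime : Prime P := hirr.prime
  have hdvd : P ∣ h * v := by
    by_contra hnd
    have h1 : ¬ P ∣ h := fun h2 => hnd (h2.mul_right v)
    have h2 : ¬ P ∣ v := fun h3 => hnd (h3.mul_left h)
    have h3 : P ^ 2 ∣ s := hSp P hPm hirr (by rw [hs]; exact hPe.mul_right _) h1
    rw [hs] at h3
    have h4 : IsCoprime (P ^ 2) (v ^ 2) :=
      ((hirr.coprime_iff_not_dvd).2 h2).pow
    have h5 : P ^ 2 ∣ e := h4.dvd_of_dvd_mul_right h3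
    rw [pow_two] at h5
    exact hirr.not_isUnit (hsq P h5)
  rw [UniqueFactorizationMonoid.mem_normalizedFactors_iff' hhv]
  exact ⟨hirr, hnorm, hdvd⟩

/-- the count -/
theorem card_le [Fintype K] (h : K[X]) (hh : h ≠ 0) (i : ℕ) :
    ((Mn K i).filter (fun s => Sp h s)).card ≤
      ∑ l ∈ range (i / 2 + 1), ∑ v ∈ Mn K l, dv (i - 2 * l) (h * v) := by
  have hsub : (Mn K i).filter (fun s => Sp h s) ⊆ (range (i / 2 + 1)).biUnion fun l =>
      (Mn K l).biUnion fun v =>
        ((Mn K (i - 2 * l)).filter (fun e => e ∣ h * v)).image (fun e => e * v ^ 2) := by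
    intro s hs
    rw [mem_filter, mem_Mn] at hs
    obtain ⟨⟨hsm, hsd⟩, hSp⟩ := hs
    obtain ⟨e, v, he, hv, hsq, hev⟩ := exists_sq s.natDegree s hsm le_rfl
    have hdeg : s.natDegree = e.natDegree + 2 * v.natDegree := by
      rw [hev, he.natDegree_mul (hv.pow 2), hv.natDegree_pow]
    simp only [mem_biUnion, mem_image, mem_filter, mem_Mn, mem_range]
    exact ⟨v.natDegree, by omega, v, ⟨hv, rfl⟩, e, ⟨⟨he, by omega⟩, dvd_hv hh he hv hsq hev hSp⟩,
      hev.symm⟩
  refine (card_le_card hsub).trans (card_biUnion_le.trans (sum_le_sum fun l _ => ?_))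
  refine card_biUnion_le.trans (sum_le_sum fun v _ => ?_)
  exact card_image_le

/-- exponentials beat linear functions -/
theorem exists_large (q δ : ℝ) (hq : 2 ≤ q) (hδ : 0 < δ) :
    ∃ n₁ : ℕ, ∀ n : ℕ, n₁ ≤ n → (n : ℝ) + 1 ≤ q ^ (δ * n) := by
  have hb : 1 < q ^ δ := Real.one_lt_rpow (by linarith) hδ
  have h1 := tendsto_pow_const_div_const_pow_of_one_lt 1 hb
  have h2 := tendsto_pow_const_div_const_pow_of_one_lt 0 hb
  have h3 := (h1.eventually (gt_mem_nhds (show (0 : ℝ) < 1 / 2 by norm_num))).and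
    (h2.eventually (gt_mem_nhds (show (0 : ℝ) < 1 / 2 by norm_num)))
  obtain ⟨n₁, hn₁⟩ := Filter.eventually_atTop.1 h3
  refine ⟨n₁, fun n hn => ?_⟩
  obtain ⟨h4, h5⟩ := hn₁ n hn
  have hpos : 0 < (q ^ δ) ^ n := by positivity
  rw [div_lt_iff₀ hpos] at h4 h5
  rw [pow_one] at h4
  rw [pow_zero] at h5
  have h6 : q ^ (δ * n) = (q ^ δ) ^ n := by
    rw [Real.rpow_mul (by linarith), Real.rpow_natCast]
  rw [h6]
  linarith

end DENAux

open DENAux in
/-- **Task DEN** -/
theorem aden : S_aden := by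
  intro hdvb K _ _ δ hδ
  obtain ⟨n₀, hn₀⟩ := hdvb K (δ / 2) (by linarith)
  have hq : (2 : ℝ) ≤ (Fintype.card K : ℝ) := q_ge
  obtain ⟨n₁, hn₁⟩ := exists_large (Fintype.card K : ℝ) (δ / 2) hq (by linarith)
  refine ⟨max n₀ n₁, fun n hn h i hh hhd hi => ?_⟩
  have h0 := hn₀ n ((le_max_left _ _).trans hn)
  have h1 := hn₁ n ((le_max_right _ _).trans hn)
  set q : ℝ := (Fintype.card K : ℝ) with hqdef
  have hq0 : 0 < q := by linarith
  have hq1 : 1 ≤ q := by linarith
  have h2 : (((Mn K i).filter (fun s => Sp h s)).card : ℝ) ≤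
      ∑ l ∈ range (i / 2 + 1), ∑ v ∈ Mn K l, (dv (i - 2 * l) (h * v) : ℝ) := by
    exact_mod_cast card_le h hh i
  have h3 : ∀ l ∈ range (i / 2 + 1), ∑ v ∈ Mn K l, (dv (i - 2 * l) (h * v) : ℝ) ≤
      q ^ ((i : ℝ) / 2) * q ^ (δ / 2 * n) := by
    intro l hl
    rw [mem_range] at hl
    have h4 : ∀ v ∈ Mn K l, (dv (i - 2 * l) (h * v) : ℝ) ≤ q ^ (δ / 2 * n) := by
      intro v hv
      rw [mem_Mn] at hv
      apply h0 _ _ (mul_ne_zero hh hv.1.ne_zero)
      rw [natDegree_mul hh hv.1.ne_zero, hv.2]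
      omega
    refine (sum_le_sum h4).trans ?_
    rw [sum_const, nsmul_eq_mul, card_Mn]
    push_cast
    rw [← hqdef]
    have h5 : q ^ l ≤ q ^ ((i : ℝ) / 2) := by
      rw [← Real.rpow_natCast]
      apply Real.rpow_le_rpow_of_exponent_le hq1
      have h6 : 2 * l ≤ i := by omega
      have h7 : (2 : ℝ) * l ≤ i := by exact_mod_cast h6
      linarith
    exact mul_le_mul_of_nonneg_right h5 (Real.rpow_nonneg hq0.le _)
  have h8 : (((Mn K i).filter (fun s => Sp h s)).card : ℝ) ≤
      ((n : ℝ) + 1) * (q ^ ((i : ℝ) / 2) * q ^ (δ / 2 * n)) := by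
    refine h2.trans ((sum_le_sum h3).trans ?_)
    rw [sum_const, nsmul_eq_mul, card_range]
    apply mul_le_mul_of_nonneg_right _ (by positivity)
    push_cast
    have h9 : i / 2 ≤ n := by omega
    have h10 : ((i / 2 : ℕ) : ℝ) ≤ n := by exact_mod_cast h9
    linarith
  refine h8.trans ?_
  have h11 : q ^ ((i : ℝ) / 2 + δ * n) = q ^ (δ / 2 * n) * (q ^ ((i : ℝ) / 2) * q ^ (δ / 2 * n)) := by
    rw [← Real.rpow_add hq0, ← Real.rpow_add hq0]
    congr 1
    ring
  rw [h11]
  exact mul_le_mul_of_nonneg_right h1 (by positivity)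

end Pool.Agent.H527.PT
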