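import Mathlib
import Pool.Agent.H527.PT.Stm

/-!
# The divisor bound in `K[X]` (task PT-DVB, helper51)
-/

set_option autoImplicit false
set_option linter.unusedSectionVars false

namespace Pool.Agent.H527.PT

open Polynomial Finset
open scoped Classical
open Pool.Agent.H694.Typ (Mn mem_Mn)
open Pool.Agent.H527.ME (dv)

namespace DVBAux

open UniqueFactorizationMonoid

variable {K : Type} [Field K] [Fintype K]

theorem monic_of_mem {B P : K[X]} (hP : P ∈ normalizedFactors B) : P.Monic := by
  have h1 := normalize_normalized_factor P hP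
  have h2 : P ≠ 0 := (irreducible_of_normalized_factor P hP).ne_zero
  rw [← h1]
  exact Polynomial.monic_normalize h2

theorem prod_nf {M : K[X]} (hM : M.Monic) : (normalizedFactors M).prod = M := by
  rw [prod_normalizedFactors_eq hM.ne_zero, hM.normalize_eq_self]

theorem sum_deg {B : K[X]} (hB : B ≠ 0) :
    ((normalizedFactors B).map natDegree).sum = B.natDegree := by
  rw [← Polynomial.natDegree_multiset_prod]
  · exact natDegree_eq_of_degree_eq (degree_eq_degree_of_associated (prod_normalizedFactors hB))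
  · exact zero_notMem_normalizedFactors B

theorem card_le {B : K[X]} (hB : B ≠ 0) : Multiset.card (normalizedFactors B) ≤ B.natDegree := by
  rw [← sum_deg hB]
  have h := Multiset.card_nsmul_le_sum (s := (normalizedFactors B).map natDegree) (a := 1) (by
    intro x hx
    rw [Multiset.mem_map] at hx
    obtain ⟨P, hP, rfl⟩ := hx
    exact (irreducible_of_normalized_factor P hP).natDegree_pos)
  simpa using h

theorem card_big {B : K[X]} (hB : B ≠ 0) (D : ℕ) :
    Multiset.card ((normalizedFactors B).filter (fun P => D < P.natDegree)) * (D + 1) ≤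
      B.natDegree := by
  rw [← sum_deg hB]
  have h := Multiset.card_nsmul_le_sum
    (s := ((normalizedFactors B).filter (fun P => D < P.natDegree)).map natDegree) (a := D + 1) (by
    intro x hx
    rw [Multiset.mem_map] at hx
    obtain ⟨P, hP, rfl⟩ := hx
    rw [Multiset.mem_filter] at hP
    exact hP.2)
  rw [Multiset.card_map, smul_eq_mul] at h
  refine h.trans ?_
  conv_rhs => rw [← Multiset.filter_add_not (fun P => D < P.natDegree) (normalizedFactors B)]
  rw [Multiset.map_add, Multiset.sum_add]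
  exact Nat.le_add_right _ _

/-- the monic polynomials of degree at most `D` -/
noncomputable def sm (K : Type) [Field K] [Fintype K] (D : ℕ) : Finset K[X] :=
  (range (D + 1)).biUnion fun d => Mn K d

theorem mem_sm {D : ℕ} {P : K[X]} : P ∈ sm K D ↔ P.Monic ∧ P.natDegree ≤ D := by
  unfold sm
  simp only [mem_biUnion, mem_range, mem_Mn]
  constructor
  · rintro ⟨d, hd, h1, h2⟩
    exact ⟨h1, by omega⟩
  · rintro ⟨h1, h2⟩
    exact ⟨P.natDegree, by omega, h1, rfl⟩

theorem dv_le (D r n : ℕ) (B : K[X]) (hB : B ≠ 0) (hn : B.natDegree ≤ 2 * n) :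
    dv r B ≤ (2 * n + 1) ^ (sm K D).card * 2 ^ (2 * n / (D + 1)) := by
  unfold dv
  have h1 : ((Mn K r).filter (fun M => M ∣ B)).card ≤
      ((Fintype.piFinset (fun _ : {P // P ∈ sm K D} => range (2 * n + 1))) ×ˢ
        (((normalizedFactors B).filter (fun P => D < P.natDegree)).powerset.toFinset)).card := by
    apply Finset.card_le_card_of_injOn
      (fun M => ((fun P : {P // P ∈ sm K D} => (normalizedFactors M).count P.1),
        (normalizedFactors M).filter (fun P => D < P.natDegree)))
    · intro M hM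
      have hM' : M ∈ (Mn K r).filter (fun M => M ∣ B) := hM
      rw [mem_filter, mem_Mn] at hM'
      obtain ⟨⟨hMm, hMr⟩, hMB⟩ := hM'
      have hle : normalizedFactors M ≤ normalizedFactors B :=
        (dvd_iff_normalizedFactors_le_normalizedFactors hMm.ne_zero hB).1 hMB
      refine Finset.mem_coe.2 (Finset.mem_product.2 ⟨?_, ?_⟩)
      · rw [Fintype.mem_piFinset]
        intro P
        rw [mem_range]
        have e1 : (normalizedFactors M).count P.1 ≤ Multiset.card (normalizedFactors M) :=
          Multiset.count_le_card _ _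
        have e2 : Multiset.card (normalizedFactors M) ≤ Multiset.card (normalizedFactors B) :=
          Multiset.card_le_card hle
        have e3 := card_le hB
        show (normalizedFactors M).count P.1 < 2 * n + 1
        omega
      · rw [Multiset.mem_toFinset, Multiset.mem_powerset]
        exact Multiset.filter_le_filter _ hle
    · intro M hM M' hM' hMM
      have hM1 : M ∈ (Mn K r).filter (fun M => M ∣ B) := hM
      have hM2 : M' ∈ (Mn K r).filter (fun M => M ∣ B) := hM'
      rw [mem_filter, mem_Mn] at hM1 hM2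
      simp only [Prod.mk.injEq] at hMM
      obtain ⟨hc, hf⟩ := hMM
      have key : normalizedFactors M = normalizedFactors M' := by
        ext P
        by_cases hP : D < P.natDegree
        · have e1 := Multiset.count_filter_of_pos (p := fun P : K[X] => D < P.natDegree)
            (s := normalizedFactors M) hP
          have e2 := Multiset.count_filter_of_pos (p := fun P : K[X] => D < P.natDegree)
            (s := normalizedFactors M') hP
          rw [← e1, ← e2, hf]
        · by_cases hPm : P.Monic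
          · have := congrFun hc ⟨P, mem_sm.2 ⟨hPm, not_lt.1 hP⟩⟩
            exact this
          · rw [Multiset.count_eq_zero_of_notMem (fun h => hPm (monic_of_mem h)),
              Multiset.count_eq_zero_of_notMem (fun h => hPm (monic_of_mem h))]
      rw [← prod_nf hM1.1.1, ← prod_nf hM2.1.1, key]
  refine h1.trans ?_
  rw [Finset.card_product, Fintype.card_piFinset]
  simp only [card_range, Finset.prod_const, Finset.card_univ, Fintype.card_coe]
  refine Nat.mul_le_mul_left _ ?_
  refine (Multiset.toFinset_card_le _).trans ?_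
  rw [Multiset.card_powerset]
  refine Nat.pow_le_pow_right (by norm_num) ?_
  rw [Nat.le_div_iff_mul_le (by omega)]
  exact (card_big hB D).trans hn

/-- a polynomial is eventually smaller than an exponential function -/
theorem ev (c : ℕ) (x : ℝ) (hx : 1 < x) : ∃ n₀ : ℕ, ∀ n : ℕ, n₀ ≤ n →
    ((2 * n + 1 : ℕ) : ℝ) ^ c ≤ x ^ n := by
  have h := tendsto_pow_const_div_const_pow_of_one_lt c hx
  have h3 : (0 : ℝ) < ((3 : ℝ) ^ c)⁻¹ := by positivity
  obtain ⟨n₀, hn₀⟩ := Filter.eventually_atTop.1 (h.eventually (gt_mem_nhds h3))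
  refine ⟨n₀ + 1, fun n hn => ?_⟩
  have h1 := hn₀ n (by omega)
  have hxn : 0 < x ^ n := by positivity
  rw [div_lt_iff₀ hxn] at h1
  have h2 : ((2 * n + 1 : ℕ) : ℝ) ≤ 3 * n := by
    have : (1 : ℝ) ≤ n := by exact_mod_cast (by omega : 1 ≤ n)
    push_cast
    linarith
  calc ((2 * n + 1 : ℕ) : ℝ) ^ c ≤ (3 * (n : ℝ)) ^ c := pow_le_pow_left₀ (by positivity) h2 c
    _ = 3 ^ c * (n : ℝ) ^ c := mul_pow _ _ _
    _ ≤ 3 ^ c * (((3 : ℝ) ^ c)⁻¹ * x ^ n) := mul_le_mul_of_nonneg_left h1.le (by positivity)
    _ = x ^ n := by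
      rw [← mul_assoc, mul_inv_cancel₀ (by positivity), one_mul]

end DVBAux

theorem dvb : S_dvb := by
  intro K _ _ δ hδ
  have hq : (2 : ℝ) ≤ (Fintype.card K : ℝ) := by
    exact_mod_cast Fintype.one_lt_card (α := K)
  have hq0 : (0 : ℝ) < (Fintype.card K : ℝ) := by linarith
  obtain ⟨D, hD⟩ := exists_nat_gt (4 / δ)
  have hx : (1 : ℝ) < (Fintype.card K : ℝ) ^ (δ / 2) := Real.one_lt_rpow (by linarith) (by linarith)
  obtain ⟨n₀, hn₀⟩ := DVBAux.ev (DVBAux.sm K D).card _ hx
  refine ⟨n₀, fun n hn B r hB hBn => ?_⟩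
  have h1 := DVBAux.dv_le D r n B hB hBn
  have h2 := hn₀ n hn
  have h3 : (dv r B : ℝ) ≤ ((2 * n + 1 : ℕ) : ℝ) ^ (DVBAux.sm K D).card * (2 : ℝ) ^ (2 * n / (D + 1)) := by
    exact_mod_cast h1
  have h4 : (2 : ℝ) ^ (2 * n / (D + 1)) ≤ (Fintype.card K : ℝ) ^ (δ / 2 * n) := by
    have e1 : (2 : ℝ) ^ (2 * n / (D + 1)) ≤ (Fintype.card K : ℝ) ^ (2 * n / (D + 1)) :=
      pow_le_pow_left₀ (by norm_num) hq _
    refine e1.trans ?_
    rw [← Real.rpow_natCast]
    apply Real.rpow_le_rpow_of_exponent_le (by linarith)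
    have e2 : ((2 * n / (D + 1) : ℕ) : ℝ) ≤ ((2 * n : ℕ) : ℝ) / ((D + 1 : ℕ) : ℝ) := Nat.cast_div_le
    refine e2.trans ?_
    rw [div_le_iff₀ (by positivity)]
    rw [div_lt_iff₀ hδ] at hD
    push_cast
    have hn0 : (0 : ℝ) ≤ n := Nat.cast_nonneg n
    nlinarith [mul_nonneg hn0 hδ.le]
  have h5 : ((Fintype.card K : ℝ) ^ (δ / 2)) ^ n = (Fintype.card K : ℝ) ^ (δ / 2 * n) := by
    rw [← Real.rpow_natCast, ← Real.rpow_mul hq0.le]
  calc (dv r B : ℝ) ≤ ((2 * n + 1 : ℕ) : ℝ) ^ (DVBAux.sm K D).card * (2 : ℝ) ^ (2 * n / (D + 1)) := h3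
    _ ≤ (Fintype.card K : ℝ) ^ (δ / 2 * n) * (Fintype.card K : ℝ) ^ (δ / 2 * n) := by
      rw [← h5]
      rw [← h5] at h4
      exact mul_le_mul h2 h4 (by positivity) (by positivity)
    _ = (Fintype.card K : ℝ) ^ (δ * n) := by
      rw [← Real.rpow_add hq0]
      congr 1
      ring

end Pool.Agent.H527.PT
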