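import Pool.Agent.H527.PT.Stm

/-!
# Task FIN: maximum over classes and degrees (helper118, for helper527)
-/

set_option autoImplicit false

namespace Pool.Agent.H527.PT

open Polynomial Finset
open scoped Classical
open Pool.Agent.H694.Typ (Mn Irn mem_Mn mem_Irn)
open Pool.Agent.H527.ME (S_ch om exc)

namespace FINAux

/-- every polynomial of positive degree has a prime factor -/
theorem om_ne {K : Type} [Field K] [Fintype K] {j : ℕ} (hj : 1 ≤ j) {k : K[X]} (hk : k ∈ Mn K j) :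
    om 1 j k ≠ 0 := by
  obtain ⟨hm, hd⟩ := mem_Mn.1 hk
  have hu : ¬ IsUnit k := by
    intro h
    have h1 := natDegree_eq_zero_of_isUnit h
    omega
  obtain ⟨P, hP1, hP2, hP3⟩ := exists_monic_irreducible_factor k hu
  have h1 : P.natDegree ≤ j := by
    rw [← hd]
    exact natDegree_le_of_dvd hP3 hm.ne_zero
  have h2 : 1 ≤ P.natDegree := hP2.natDegree_pos
  unfold om
  intro h0
  have h3 := (Finset.sum_eq_zero_iff.1 h0) P.natDegree (mem_Icc.2 ⟨h2, h1⟩)
  rw [Finset.card_eq_zero] at h3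
  have h4 : P ∈ (Irn K P.natDegree).filter (fun P => P ∣ k) :=
    mem_filter.2 ⟨mem_Irn.2 ⟨hP1, rfl, hP2⟩, hP3⟩
  rw [h3] at h4
  exact absurd h4 (Finset.notMem_empty _)

theorem exc_zero {K : Type} [Field K] [Fintype K] {j : ℕ} (hj : 1 ≤ j) : exc K 1 j j = 0 := by
  unfold exc
  rw [Finset.card_eq_zero]
  exact Finset.filter_false_of_mem fun k hk => om_ne hj hk

theorem filter_all {K : Type} [Field K] [Fintype K] {j : ℕ} (hj : 1 ≤ j) :
    (Mn K j).filter (fun k => om 1 j k ≠ 0) = Mn K j :=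
  Finset.filter_true_of_mem fun k hk => om_ne hj hk

/-- the linear factor is absorbed -/
theorem absorb {q c : ℝ} (hq : 2 ≤ q) (hc : 0 < c) (x : ℝ) (hx : 0 ≤ x) :
    x ≤ 1 / (Real.log 2 * c) * q ^ (c * x) := by
  have hl : 0 < Real.log 2 := Real.log_pos (by norm_num)
  have h1 : Real.log 2 * c * x ≤ q ^ (c * x) := by
    rw [Real.rpow_def_of_pos (by linarith)]
    have h2 : Real.log 2 ≤ Real.log q := Real.log_le_log (by norm_num) hq
    have h3 := Real.add_one_le_exp (Real.log q * (c * x))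
    have h4 : Real.log 2 * (c * x) ≤ Real.log q * (c * x) :=
      mul_le_mul_of_nonneg_right h2 (by positivity)
    linarith
  rw [one_div, inv_mul_eq_div, le_div_iff₀ (by positivity)]
  linarith

end FINAux

open FINAux

theorem afin : S_afin := by
  intro hch a ha hmda K _ _ _ ε hε
  obtain ⟨c₀, hc₀, n₀, hT⟩ := hmda K (ε / 2) (by positivity)
  have hq2 : 2 ≤ Fintype.card K := Fintype.one_lt_card
  have hchq := hch K
  obtain ⟨q, hq⟩ : ∃ q : ℝ, q = (Fintype.card K : ℝ) := ⟨_, rfl⟩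
  have hqq : (2 : ℝ) ≤ q := by
    rw [hq]
    exact_mod_cast hq2
  have hq0 : 0 < q := by linarith
  have hq1 : 1 ≤ q := by linarith
  have hlog2 : 0 < Real.log 2 := Real.log_pos (by norm_num)
  obtain ⟨c₁, hc₁⟩ : ∃ c₁ : ℝ, c₁ = min c₀ 1 := ⟨_, rfl⟩
  have hc₁0 : 0 < c₁ := by
    rw [hc₁]
    exact lt_min hc₀ one_pos
  have hc₁1 : c₁ ≤ 1 := by
    rw [hc₁]
    exact min_le_right _ _
  have hc₁c : c₁ ≤ c₀ := by
    rw [hc₁]
    exact min_le_left _ _
  obtain ⟨c, hc⟩ : ∃ c : ℝ, c = min (ε / 4) (c₁ / 2) := ⟨_, rfl⟩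
  have hc0 : 0 < c := by
    rw [hc]
    exact lt_min (by positivity) (by positivity)
  have hcε : c ≤ ε / 4 := by
    rw [hc]
    exact min_le_left _ _
  have hcc : c ≤ c₁ / 2 := by
    rw [hc]
    exact min_le_right _ _
  refine ⟨q + 1 / (Real.log 2 * (c₁ / 2)) + q ^ (c * (2 * n₀)), c, by positivity, hc0, ?_⟩
  rw [← hq]
  intro n d H hh mm hn hdn hd1 hd2 hH hhH hmm
  have hn2 : (2 : ℝ) ≤ n := by exact_mod_cast hn
  have hn0 : (0 : ℝ) < n := by linarith
  have hcard : (1 : ℝ) ≤ H.card := by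
    have : 0 < H.card := Finset.card_pos.2 ⟨_, hhH 0⟩
    exact_mod_cast this
  have hε1 : ε ≤ 1 / 8 := by
    have h1 : (3 / 4 + ε) * n ≤ (1 - ε) * n := hd1.trans hd2
    have h2 := le_of_mul_le_mul_right h1 hn0
    linarith
  have hE0 : 0 < q ^ ((1 - c) * n) := Real.rpow_pos_of_pos hq0 _
  by_cases hcase : 2 * n₀ ≤ n
  · obtain ⟨s, hs⟩ : ∃ s : ℕ, s = ⌊ε * n / 4⌋₊ := ⟨_, rfl⟩
    have hs1 : (s : ℝ) ≤ ε * n / 4 := by
      rw [hs]
      exact Nat.floor_le (by positivity)
    have hs2 : ε * n / 4 < (s : ℝ) + 1 := by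
      rw [hs]
      exact Nat.lt_floor_add_one _
    have hεn : 0 < ε * n := by positivity
    have hds : d + s ≤ n := by
      have h1 : (d : ℝ) + s ≤ n := by linarith
      exact_mod_cast h1
    have hsn : s ≤ n := by omega
    -- the degrees `m`
    have hm : ∀ m : ℕ, n - s < m → m ≤ n → 1 ≤ m - d ∧ n₀ ≤ m ∧ (m : ℝ) ≤ n ∧
        (n : ℝ) - ε * n / 4 ≤ m := by
      intro m h1 h2
      have h3 : (n : ℝ) < m + s := by
        have : n < m + s := by omega
        exact_mod_cast this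
      have h4 : (d : ℝ) < m := by linarith
      have h5 : d < m := by exact_mod_cast h4
      have h6 : (m : ℝ) ≤ n := by exact_mod_cast h2
      have h7 : (2 * n₀ : ℝ) ≤ n := by exact_mod_cast hcase
      have h8 : (n₀ : ℝ) ≤ m := by nlinarith
      exact ⟨by omega, by exact_mod_cast h8, h6, by linarith⟩
    have hmain := hchq n d 1 s (fun m => m - d) (fun F => (a K F : ℝ)) H (q ^ ((1 - c₁) * n)) hh mm
      (ha K) hds hH hhH hmm ?_
    swap
    · intro m h1 h2 h hhm u hu
      obtain ⟨h3, h4, h5, h6⟩ := hm m h1 h2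
      have hm0 : (0 : ℝ) ≤ m := Nat.cast_nonneg m
      rw [filter_all h3]
      have h7 := hT m h4 d h (by nlinarith) (by nlinarith) (hH h hhm).1
        (by have := (hH h hhm).2; omega)
      rw [← hq] at h7
      calc |∑ M ∈ Mn K d, u M * ∑ k ∈ Mn K (m - d), (a K (M * k + h) : ℝ)|
          ≤ ∑ M ∈ Mn K d, |u M * ∑ k ∈ Mn K (m - d), (a K (M * k + h) : ℝ)| :=
            Finset.abs_sum_le_sum_abs _ _
        _ ≤ ∑ M ∈ Mn K d, |∑ k ∈ Mn K (m - d), (a K (M * k + h) : ℝ)| := by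
            refine Finset.sum_le_sum fun M _ => ?_
            rw [abs_mul]
            calc |u M| * |∑ k ∈ Mn K (m - d), (a K (M * k + h) : ℝ)|
                ≤ 1 * |∑ k ∈ Mn K (m - d), (a K (M * k + h) : ℝ)| :=
                  mul_le_mul_of_nonneg_right (hu M) (abs_nonneg _)
              _ = _ := one_mul _
        _ ≤ q ^ ((1 - c₀) * m) := h7
        _ ≤ q ^ ((1 - c₁) * n) := by
            refine Real.rpow_le_rpow_of_exponent_le hq1 ?_
            calc (1 - c₀) * (m : ℝ) ≤ (1 - c₁) * m :=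
                  mul_le_mul_of_nonneg_right (by linarith) hm0
              _ ≤ (1 - c₁) * n := mul_le_mul_of_nonneg_left h5 (by linarith)
    refine hmain.trans ?_
    rw [← hq]
    have hsum : ∑ m ∈ Ioc (n - s) n, ((H.card : ℝ) * q ^ ((1 - c₁) * n) +
        q ^ d * (exc K 1 (m - d) (m - d) : ℝ)) ≤ n * ((H.card : ℝ) * q ^ ((1 - c₁) * n)) := by
      have h1 : ∀ m ∈ Ioc (n - s) n, (H.card : ℝ) * q ^ ((1 - c₁) * n) +
          q ^ d * (exc K 1 (m - d) (m - d) : ℝ) = (H.card : ℝ) * q ^ ((1 - c₁) * n) := by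
        intro m hm'
        rw [mem_Ioc] at hm'
        rw [exc_zero (hm m hm'.1 hm'.2).1, Nat.cast_zero, mul_zero, add_zero]
      rw [Finset.sum_congr rfl h1, Finset.sum_const, nsmul_eq_mul, Nat.card_Ioc]
      refine mul_le_mul_of_nonneg_right ?_ (by positivity)
      exact_mod_cast (by omega : n - (n - s) ≤ n)
    have hp1 : q ^ (n - s) ≤ q * (H.card * q ^ ((1 - c) * n)) := by
      rw [← Real.rpow_natCast q (n - s), Nat.cast_sub hsn]
      calc q ^ ((n : ℝ) - s) ≤ q ^ (1 + (1 - c) * n) := by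
            refine Real.rpow_le_rpow_of_exponent_le hq1 ?_
            have h1 : c * n ≤ ε / 4 * n := mul_le_mul_of_nonneg_right hcε hn0.le
            linarith
        _ = q * q ^ ((1 - c) * n) := by
            rw [Real.rpow_add hq0, Real.rpow_one]
        _ ≤ q * (H.card * q ^ ((1 - c) * n)) := by
            refine mul_le_mul_of_nonneg_left ?_ hq0.le
            exact le_mul_of_one_le_left hE0.le hcard
    have hp2 : n * ((H.card : ℝ) * q ^ ((1 - c₁) * n)) ≤
        1 / (Real.log 2 * (c₁ / 2)) * (H.card * q ^ ((1 - c) * n)) := by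
      have h1 := absorb hqq (show 0 < c₁ / 2 by positivity) n hn0.le
      calc (n : ℝ) * ((H.card : ℝ) * q ^ ((1 - c₁) * n))
          ≤ (1 / (Real.log 2 * (c₁ / 2)) * q ^ (c₁ / 2 * n)) *
            ((H.card : ℝ) * q ^ ((1 - c₁) * n)) :=
            mul_le_mul_of_nonneg_right h1 (by positivity)
        _ = 1 / (Real.log 2 * (c₁ / 2)) * (H.card * (q ^ (c₁ / 2 * n) * q ^ ((1 - c₁) * n))) := by
            ring
        _ ≤ 1 / (Real.log 2 * (c₁ / 2)) * (H.card * q ^ ((1 - c) * n)) := by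
            rw [← Real.rpow_add hq0]
            refine mul_le_mul_of_nonneg_left ?_ (by positivity)
            refine mul_le_mul_of_nonneg_left ?_ (by positivity)
            refine Real.rpow_le_rpow_of_exponent_le hq1 ?_
            have h2 : c * n ≤ c₁ / 2 * n := mul_le_mul_of_nonneg_right hcc hn0.le
            linarith
    have hp3 : 0 ≤ q ^ (c * (2 * n₀)) * (H.card * q ^ ((1 - c) * n)) := by positivity
    calc q ^ (n - s) + ∑ m ∈ Ioc (n - s) n, ((H.card : ℝ) * q ^ ((1 - c₁) * n) +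
          q ^ d * (exc K 1 (m - d) (m - d) : ℝ))
        ≤ q * (H.card * q ^ ((1 - c) * n)) +
          1 / (Real.log 2 * (c₁ / 2)) * (H.card * q ^ ((1 - c) * n)) :=
          add_le_add hp1 (hsum.trans hp2)
      _ ≤ q * (H.card * q ^ ((1 - c) * n)) +
          1 / (Real.log 2 * (c₁ / 2)) * (H.card * q ^ ((1 - c) * n)) +
          q ^ (c * (2 * n₀)) * (H.card * q ^ ((1 - c) * n)) := by linarith
      _ = (q + 1 / (Real.log 2 * (c₁ / 2)) + q ^ (c * (2 * n₀))) * H.card *
          q ^ ((1 - c) * n) := by ring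
  · -- the trivial bound
    have hmain := hchq n d 0 0 (fun m => m - d) (fun F => (a K F : ℝ)) H 0 hh mm (ha K)
      (by omega) hH hhH hmm (fun m hm1 hm2 => absurd hm2 (by omega))
    rw [Nat.sub_zero, Finset.Ioc_self, Finset.sum_empty, add_zero, ← hq] at hmain
    refine hmain.trans ?_
    have h1 : (n : ℝ) ≤ 2 * n₀ := by
      have : n ≤ 2 * n₀ := by omega
      exact_mod_cast this
    have h2 : q ^ n ≤ q ^ (c * (2 * n₀)) * (H.card * q ^ ((1 - c) * n)) := by
      calc q ^ n = q ^ (c * n + (1 - c) * n) := by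
            rw [← Real.rpow_natCast]
            congr 1
            ring
        _ = q ^ (c * n) * q ^ ((1 - c) * n) := Real.rpow_add hq0 _ _
        _ ≤ q ^ (c * (2 * n₀)) * (H.card * q ^ ((1 - c) * n)) := by
            refine mul_le_mul ?_ (le_mul_of_one_le_left hE0.le hcard) hE0.le (by positivity)
            exact Real.rpow_le_rpow_of_exponent_le hq1 (mul_le_mul_of_nonneg_left h1 hc0.le)
    have h3 : 0 ≤ (q + 1 / (Real.log 2 * (c₁ / 2))) * (H.card * q ^ ((1 - c) * n)) := by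
      positivity
    calc q ^ n ≤ q ^ (c * (2 * n₀)) * (H.card * q ^ ((1 - c) * n)) := h2
      _ ≤ (q + 1 / (Real.log 2 * (c₁ / 2))) * (H.card * q ^ ((1 - c) * n)) +
          q ^ (c * (2 * n₀)) * (H.card * q ^ ((1 - c) * n)) := by linarith
      _ = (q + 1 / (Real.log 2 * (c₁ / 2)) + q ^ (c * (2 * n₀))) * H.card *
          q ^ ((1 - c) * n) := by ring

end Pool.Agent.H527.PT
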