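import Pool.Agent.H527.PT.Stm
import Pool.Agent.H527.ME.Typl
import Pool.Agent.H527.ME.Div

/-!
# Task LAM (helper364, for helper527): from `mobg` to the Liouville function

The tail is estimated with helper955's lemma `Typl.tail` (Cauchy-Schwarz and the second moment of the
number of divisors), so that the divisor bound is not needed.
-/

set_option autoImplicit false

namespace Pool.Agent.H527.PT

open Polynomial Finset Filter Topology
open scoped Classical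
open Pool.Agent.H985.KP (mobg)
open Pool.Agent.H694.Typ (Mn mem_Mn q_ge)
open Pool.Agent.H524.Cw (lio lio_ne lamD lamD_diff ML mem_ML Mn_add)
open Pool.Agent.H527.ME (lamF S_div)
open Pool.Agent.H527.ME.Typl (msq_eq ind tail card_ML)

namespace LAMAux

/-- `4 (n + 1) ≤ Q ^ n` for large `n`. -/
theorem large {Q : ℝ} (hQ : 1 < Q) : ∃ n₀ : ℕ, ∀ n : ℕ, n₀ ≤ n → 4 * ((n : ℝ) + 1) ≤ Q ^ n := by
  have h1 := tendsto_pow_const_div_const_pow_of_one_lt 1 hQ
  have h2 : ∀ᶠ n : ℕ in atTop, (n : ℝ) ^ 1 / Q ^ n ≤ 1 / 8 :=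
    h1.eventually (ge_mem_nhds (by norm_num))
  obtain ⟨n₀, hn₀⟩ := Filter.eventually_atTop.1 (h2.and (eventually_ge_atTop 1))
  refine ⟨n₀, fun n hn => ?_⟩
  obtain ⟨h3, h4⟩ := hn₀ n hn
  have h5 : (1 : ℝ) ≤ n := by exact_mod_cast h4
  have h6 : (0 : ℝ) < Q ^ n := by positivity
  rw [pow_one, div_le_iff₀ h6] at h3
  linarith

variable {K : Type} [Field K] [Fintype K]

/-- From the truncated function to the Liouville function. -/
theorem split (hdiv : S_div) {n d G : ℕ} (hd : d ≤ n) {h : K[X]} (hh : h.natDegree < n) :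
    ∑ M ∈ Mn K d, |∑ k ∈ Mn K (n - d), (lamF K (M * k + h) : ℝ)| ≤
      ∑ g ∈ ML K G, ∑ M ∈ Mn K d, |∑ k ∈ Mn K (n - d), (mobg g (M * k + h) : ℝ)| +
      ((n : ℝ) + 1) * (Fintype.card K : ℝ) ^ n * √((1 / 2) ^ G) := by
  refine le_trans ?_ (add_le_add le_rfl (tail (G := G) hdiv hd hh))
  rw [sum_comm, ← sum_add_distrib]
  refine sum_le_sum fun M hM => ?_
  have h1 : ∑ k ∈ Mn K (n - d), (lamF K (M * k + h) : ℝ) =
      ∑ g ∈ ML K G, ∑ k ∈ Mn K (n - d), (mobg g (M * k + h) : ℝ) +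
      ∑ k ∈ Mn K (n - d), ((lamF K (M * k + h) : ℝ) - (lamD G (M * k + h) : ℝ)) := by
    rw [sum_comm, ← sum_add_distrib]
    refine sum_congr rfl fun k _ => ?_
    have h2 : (lamD G (M * k + h) : ℝ) = ∑ g ∈ ML K G, (mobg g (M * k + h) : ℝ) := by
      unfold lamD
      push_cast
      exact sum_congr rfl fun g _ => by rw [msq_eq]
    rw [← h2]
    ring
  rw [h1]
  refine (abs_add_le _ _).trans (add_le_add (abs_sum_le_sum_abs _ _) ?_)
  refine (abs_sum_le_sum_abs _ _).trans (sum_le_sum fun k hk => ?_)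
  obtain ⟨hM1, hM2⟩ := mem_Mn.1 hM
  obtain ⟨hk1, hk2⟩ := mem_Mn.1 hk
  have hmem : M * k ∈ Mn K n :=
    mem_Mn.2 ⟨hM1.mul hk1, by rw [hM1.natDegree_mul hk1, hM2, hk2]; omega⟩
  have hmon := (mem_Mn.1 (Mn_add hh hmem)).1
  have h2 : (lamF K (M * k + h) : ℝ) = (lio (M * k + h) : ℝ) := by
    rw [lio_ne hmon.ne_zero]
    rfl
  rw [h2]
  exact lamD_diff G hmon

end LAMAux

open LAMAux in
/-- **Task LAM.** -/
theorem alam : S_alam := by
  intro hmod _ K _ _ _ ε hε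
  have hdiv : S_div := Pool.Agent.H527.ME.div'
  obtain ⟨c₁, hc₁, n₁, H⟩ := hmod K ε hε
  obtain ⟨q, hq⟩ : ∃ q : ℝ, q = (Fintype.card K : ℝ) := ⟨_, rfl⟩
  have hq2 : 2 ≤ q := by rw [hq]; exact q_ge (k := K)
  have hq1 : 1 ≤ q := by linarith
  have hq0 : 0 < q := by linarith
  obtain ⟨κ, hκd⟩ : ∃ κ : ℝ, κ = Real.logb q 2 := ⟨_, rfl⟩
  have hκ0 : 0 < κ := by rw [hκd]; exact Real.logb_pos (by linarith) (by norm_num)
  have hκ : q ^ κ = 2 := by
    rw [hκd]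
    exact Real.rpow_logb hq0 (by linarith) (by norm_num)
  have hκ1 : κ ≤ 1 := by
    rw [hκd, Real.logb_le_iff_le_rpow (by linarith) (by norm_num), Real.rpow_one]
    exact hq2
  obtain ⟨c, hc⟩ : ∃ c : ℝ, c = κ * c₁ / 8 := ⟨_, rfl⟩
  have hc0 : 0 < c := by rw [hc]; positivity
  have hc1 : c ≤ c₁ / 8 := by
    rw [hc]
    have := mul_le_mul_of_nonneg_right hκ1 hc₁.le
    linarith
  have mono : ∀ a b : ℝ, a ≤ b → q ^ a ≤ q ^ b := fun a b hab =>
    Real.rpow_le_rpow_of_exponent_le hq1 hab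
  have hQ : 1 < q ^ c := Real.one_lt_rpow (by linarith) hc0
  obtain ⟨n₂, hn₂⟩ := large hQ
  refine ⟨c, hc0, max n₁ n₂, ?_⟩
  intro n hn d h hd1 hd2 hh0 hh
  have hnn : (0 : ℝ) ≤ n := Nat.cast_nonneg n
  have hdn : d ≤ n := by
    have h1 : (d : ℝ) ≤ n := by nlinarith
    exact_mod_cast h1
  have hlarge : 4 * ((n : ℝ) + 1) ≤ q ^ (c * n) := by
    rw [Real.rpow_mul hq0.le, Real.rpow_natCast]
    exact hn₂ n ((le_max_right _ _).trans hn)
  obtain ⟨G, hG⟩ : ∃ G : ℕ, G = ⌊c₁ * n / 2⌋₊ := ⟨_, rfl⟩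
  have hG1 : (G : ℝ) ≤ c₁ * n / 2 := by rw [hG]; exact Nat.floor_le (by positivity)
  have hG2 : c₁ * n / 2 < G + 1 := by rw [hG]; exact Nat.lt_floor_add_one _
  have hcn0 : 0 ≤ c₁ * n := by positivity
  have key := split (G := G) hdiv hdn hh
  rw [← hq] at key ⊢
  -- the first part
  have hP : ∑ g ∈ ML K G, ∑ M ∈ Mn K d, |∑ k ∈ Mn K (n - d), (mobg g (M * k + h) : ℝ)| ≤
      2 * q ^ ((1 - c₁ / 2) * n) := by
    have h1 : ∀ g ∈ ML K G, ∑ M ∈ Mn K d, |∑ k ∈ Mn K (n - d), (mobg g (M * k + h) : ℝ)| ≤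
        q ^ ((1 - c₁) * n) := by
      intro g hg
      have h2 : (g.natDegree : ℝ) ≤ c₁ * n := by
        have : (g.natDegree : ℝ) ≤ G := by exact_mod_cast (mem_ML.1 hg).2
        linarith
      have h3 := H n ((le_max_left _ _).trans hn) d h g hd1 hd2 hh0 hh (mem_ML.1 hg).1 h2
      rwa [← hq] at h3
    refine (sum_le_sum h1).trans ?_
    rw [sum_const, nsmul_eq_mul]
    have h4 : ((ML K G).card : ℝ) ≤ 2 * q ^ (c₁ * n / 2) := by
      refine (card_ML G).trans ?_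
      rw [← hq, ← Real.rpow_natCast]
      exact mul_le_mul_of_nonneg_left (mono _ _ hG1) (by norm_num)
    calc ((ML K G).card : ℝ) * q ^ ((1 - c₁) * n) ≤
          2 * q ^ (c₁ * n / 2) * q ^ ((1 - c₁) * n) :=
          mul_le_mul_of_nonneg_right h4 (Real.rpow_nonneg hq0.le _)
      _ = 2 * q ^ ((1 - c₁ / 2) * n) := by
          rw [mul_assoc, ← Real.rpow_add hq0]
          congr 2
          ring
  -- the tail
  have hsq : √((1 / 2 : ℝ) ^ G) ≤ 2 * q ^ (-(2 * (c * n))) := by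
    have h1 : ((1 / 2 : ℝ)) ^ G = q ^ (-(κ * G)) := by
      rw [Real.rpow_neg hq0.le, Real.rpow_mul hq0.le, hκ, Real.rpow_natCast, one_div, inv_pow]
    rw [Real.sqrt_le_left (by positivity), h1, mul_pow,
      ← Real.rpow_natCast (q ^ (-(2 * (c * n)))) 2, ← Real.rpow_mul hq0.le]
    have h3 : q ^ (-(κ * (G : ℝ))) ≤ q ^ (κ + -(4 * (c * n))) := by
      apply mono
      have := mul_le_mul_of_nonneg_left hG2.le hκ0.le
      rw [hc]
      linarith
    rw [Real.rpow_add hq0, hκ] at h3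
    have e : -(2 * (c * (n : ℝ))) * ((2 : ℕ) : ℝ) = -(4 * (c * n)) := by push_cast; ring
    rw [e]
    have : 0 ≤ q ^ (-(4 * (c * n))) := Real.rpow_nonneg hq0.le _
    linarith
  have hA : 2 * q ^ ((1 - c₁ / 2) * n) ≤ q ^ ((1 - c) * n) / 2 := by
    have h1 : 4 ≤ q ^ (c * n) := by linarith
    have h2 : q ^ ((1 - c₁ / 2) * n) * q ^ (c * n) ≤ q ^ ((1 - c) * n) := by
      rw [← Real.rpow_add hq0]
      apply mono
      nlinarith
    have h3 : q ^ ((1 - c₁ / 2) * n) * 4 ≤ q ^ ((1 - c₁ / 2) * n) * q ^ (c * n) :=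
      mul_le_mul_of_nonneg_left h1 (Real.rpow_nonneg hq0.le _)
    linarith
  have hB : ((n : ℝ) + 1) * q ^ n * (2 * q ^ (-(2 * (c * n)))) ≤ q ^ ((1 - c) * n) / 2 := by
    have h1 : q ^ n * q ^ (-(2 * (c * n))) * q ^ (c * n) = q ^ ((1 - c) * n) := by
      rw [← Real.rpow_natCast q n, ← Real.rpow_add hq0, ← Real.rpow_add hq0]
      congr 1
      ring
    have h2 : (0 : ℝ) ≤ q ^ n * q ^ (-(2 * (c * n))) :=
      mul_nonneg (by positivity) (Real.rpow_nonneg hq0.le _)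
    have h3 := mul_le_mul_of_nonneg_left hlarge h2
    rw [h1] at h3
    nlinarith
  calc _ ≤ _ := key
    _ ≤ 2 * q ^ ((1 - c₁ / 2) * n) + ((n : ℝ) + 1) * q ^ n * (2 * q ^ (-(2 * (c * n)))) :=
        add_le_add hP (mul_le_mul_of_nonneg_left hsq (by positivity))
    _ ≤ q ^ ((1 - c) * n) / 2 + q ^ ((1 - c) * n) / 2 := add_le_add hA hB
    _ = _ := by ring

end Pool.Agent.H527.PT
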