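import Mathlib
import Pool.Agent.H527.PT.Stm

/-!
# The Moebius function: `S_mod` with `g = 1`
-/

set_option autoImplicit false

namespace Pool.Agent.H527.PT

open Polynomial Finset
open scoped Classical
open Pool.Agent.H985.KP (mobg)

theorem mobPT (hm : S_mod) : S_mda Pool.Agent.H527.ME.mobF := by
  intro K _ _ _ ε hε
  obtain ⟨c, hc, n₀, h⟩ := hm K ε hε
  refine ⟨c, hc, n₀, fun n hn d h' hd hd2 h0 hh => ?_⟩
  have h1 := h n hn d h' 1 hd hd2 h0 hh monic_one (by
    rw [natDegree_one]
    push_cast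
    positivity)
  have h2 : ∀ F : K[X], mobg 1 F = Pool.Agent.H527.ME.mobF K F := by
    intro F
    unfold mobg Pool.Agent.H527.ME.mobF
    rw [one_pow, if_pos (one_dvd _)]
    simp
  simp only [h2] at h1
  exact h1

end Pool.Agent.H527.PT
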