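import Pool.Agent.H527.PT.Stm
import Pool.Agent.H251.SP.TIIa

/-!
# Task MOD of project PT: the moduli
-/

set_option autoImplicit false

namespace Pool.Agent.H527.PT

open Polynomial Finset
open scoped Classical
open Pool.Agent.H985.Chow (mob)
open Pool.Agent.H985.KP (mobg)
open Pool.Agent.H694.Typ (Mn Irn mem_Mn card_Mn q_ge)

namespace MODAux

variable {K : Type} [Field K] [Fintype K]

/-- the substitution `B = M s` -/
theorem sum_mul_right (d i : ℕ) (s : K[X]) (hs : s ∈ Mn K i) (u f : K[X] → ℝ) :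
    ∑ M ∈ Mn K d, u M * f (M * s) =
      ∑ B ∈ Mn K (d + i), (if s ∣ B then u (B /ₘ s) else 0) * f B := by
  have hs' := mem_Mn.mp hs
  have h1 : ∑ B ∈ Mn K (d + i), (if s ∣ B then u (B /ₘ s) else 0) * f B =
      ∑ B ∈ (Mn K (d + i)).filter (fun B => s ∣ B), u (B /ₘ s) * f B := by
    rw [sum_filter]
    refine sum_congr rfl fun B _ => ?_
    split_ifs
    · rfl
    · rw [zero_mul]
  have hcancel : ∀ M : K[X], (M * s) /ₘ s = M := by
    intro M
    rw [mul_comm]
    exact mul_divByMonic_cancel_left M hs'.1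
  rw [h1]
  refine sum_nbij (fun M => M * s) ?_ ?_ ?_ ?_
  · intro M hM
    have hM' := mem_Mn.mp hM
    rw [mem_filter, mem_Mn]
    exact ⟨⟨hM'.1.mul hs'.1, by rw [hM'.1.natDegree_mul hs'.1, hM'.2, hs'.2]⟩, dvd_mul_left _ _⟩
  · intro a _ b _ hab
    exact mul_right_cancel₀ hs'.1.ne_zero hab
  · intro B hB
    rw [mem_coe, mem_filter, mem_Mn] at hB
    obtain ⟨⟨hB1, hB2⟩, M, hM⟩ := hB
    have hMm : M.Monic := by
      rw [hM] at hB1
      exact hs'.1.of_mul_monic_left hB1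
    refine ⟨M, ?_, ?_⟩
    · rw [mem_coe, mem_Mn]
      refine ⟨hMm, ?_⟩
      rw [hM, hs'.1.natDegree_mul hMm, hs'.2] at hB2
      omega
    · change M * s = B
      rw [hM, mul_comm]
  · intro M _
    rw [hcancel]

/-- powers against exponentials -/
theorem growth (C : ℕ) (b : ℝ) (hb : 1 < b) :
    ∃ n₀ : ℕ, ∀ n : ℕ, n₀ ≤ n → 4 * (n : ℝ) ^ C ≤ b ^ n := by
  have h1 := tendsto_pow_const_div_const_pow_of_one_lt C hb
  have h2 := h1.eventually (gt_mem_nhds (show (0 : ℝ) < 1 / 4 by norm_num))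
  obtain ⟨n₀, h3⟩ := Filter.eventually_atTop.mp h2
  refine ⟨n₀, fun n hn => ?_⟩
  have h4 := h3 n hn
  have h5 : (0 : ℝ) < b ^ n := by positivity
  rw [div_lt_iff₀ h5] at h4
  linarith

end MODAux

open MODAux in
theorem amod : S_amod := by
  intro hT hD hN K _ _ _ ε hε
  set Q : ℝ := (Fintype.card K : ℝ) with hQ
  have hQ2 : (2 : ℝ) ≤ Q := q_ge
  have hQ0 : (0 : ℝ) < Q := by linarith
  have hQ1 : (1 : ℝ) ≤ Q := by linarith
  obtain ⟨C, c', hc', n1, h1⟩ := hT K ε hε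
  set θ : ℝ := min (ε / 128) (c' / 4) with hθ
  have hθ0 : 0 < θ := lt_min (by positivity) (by positivity)
  have hθε : θ ≤ ε / 128 := min_le_left _ _
  have hθc : θ ≤ c' / 4 := min_le_right _ _
  obtain ⟨n2, h2⟩ := hN K (θ / 8) (by positivity)
  obtain ⟨n3, h3⟩ := growth (C + 1) (Q ^ (θ / 4))
    (Real.one_lt_rpow (by linarith) (by positivity))
  refine ⟨θ / 8, by positivity, max (max n1 n2) (max n3 1), ?_⟩
  intro n hn d h g hd1 hd2 h0 hhn hg hgn
  have hn1 : n1 ≤ n := (le_max_left _ _).trans ((le_max_left _ _).trans hn)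
  have hn2 : n2 ≤ n := (le_max_right _ _).trans ((le_max_left _ _).trans hn)
  have hn3 : n3 ≤ n := (le_max_left _ _).trans ((le_max_right _ _).trans hn)
  have hn4 : 1 ≤ n := (le_max_right _ _).trans ((le_max_right _ _).trans hn)
  have hnR : (1 : ℝ) ≤ n := by exact_mod_cast hn4
  have hdn : d ≤ n := by
    have : (d : ℝ) ≤ n := by nlinarith
    exact_mod_cast this
  obtain ⟨r, hr⟩ : ∃ r, n = d + r := ⟨n - d, by omega⟩
  have hnd : n - d = r := by omega
  have hrR : (n : ℝ) = d + r := by rw [hr]; push_cast; ring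
  rw [hnd]
  have hgn' : (g.natDegree : ℝ) ≤ c' * n := by nlinarith
  have hnC : (1 : ℝ) ≤ (n : ℝ) ^ C := one_le_pow₀ hnR
  -- the signs
  set u : K[X] → ℝ := fun M =>
    if 0 ≤ ∑ k ∈ Mn K r, (mobg g (M * k + h) : ℝ) then 1 else -1 with hu
  have hu1 : ∀ M, |u M| ≤ 1 := by
    intro M
    simp only [hu]
    split_ifs
    · rw [abs_one]
    · rw [abs_neg, abs_one]
  have habs : ∀ M, |∑ k ∈ Mn K r, (mobg g (M * k + h) : ℝ)| =
      u M * ∑ k ∈ Mn K r, (mobg g (M * k + h) : ℝ) := by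
    intro M
    simp only [hu]
    split_ifs with hc
    · rw [abs_of_nonneg hc, one_mul]
    · rw [abs_of_neg (not_le.mp hc), neg_one_mul]
  -- the sets
  set F : ℕ → Finset K[X] := fun i => (Mn K i).filter (fun s => Sp h s) with hF
  set G : ℕ → K[X] → Finset K[X] := fun i s =>
    (Mn K (r - i)).filter (fun t => Squarefree t ∧ IsCoprime t (s * h)) with hG
  set T : ℕ → K[X] → ℝ := fun i s =>
    ∑ M ∈ Mn K d, u M * ∑ t ∈ G i s, (mobg g (M * (s * t) + h) : ℝ) with hTd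
  have hmain : ∑ M ∈ Mn K d, |∑ k ∈ Mn K r, (mobg g (M * k + h) : ℝ)| =
      ∑ i ∈ range (r + 1), ∑ s ∈ F i, T i s := by
    calc ∑ M ∈ Mn K d, |∑ k ∈ Mn K r, (mobg g (M * k + h) : ℝ)|
        = ∑ M ∈ Mn K d, ∑ i ∈ range (r + 1), ∑ s ∈ F i,
          u M * ∑ t ∈ G i s, (mobg g (M * (s * t) + h) : ℝ) := by
          refine sum_congr rfl fun M _ => ?_
          rw [habs M, hD K r h (fun k => (mobg g (M * k + h) : ℝ)) h0, mul_sum]
          refine sum_congr rfl fun i _ => ?_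
          rw [mul_sum]
      _ = ∑ i ∈ range (r + 1), ∑ M ∈ Mn K d, ∑ s ∈ F i,
          u M * ∑ t ∈ G i s, (mobg g (M * (s * t) + h) : ℝ) := sum_comm
      _ = ∑ i ∈ range (r + 1), ∑ s ∈ F i, T i s := by
          refine sum_congr rfl fun i _ => ?_
          rw [sum_comm]
  -- the trivial bound
  have hb2 : ∀ (i : ℕ) (s : K[X]), |T i s| ≤ Q ^ d * Q ^ (r - i) := by
    intro i s
    have e1 : ∀ M, |∑ t ∈ G i s, (mobg g (M * (s * t) + h) : ℝ)| ≤ Q ^ (r - i) := by
      intro M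
      refine (abs_sum_le_sum_abs _ _).trans ?_
      refine (sum_le_sum fun t _ => Pool.Agent.H251.SP.TII.mobg_abs g (M * (s * t) + h)).trans ?_
      rw [sum_const, nsmul_eq_mul, mul_one]
      have e2 : (G i s).card ≤ (Mn K (r - i)).card := card_le_card (filter_subset _ _)
      rw [card_Mn] at e2
      rw [hQ]
      exact_mod_cast e2
    refine (abs_sum_le_sum_abs _ _).trans ?_
    have e3 : ∀ M ∈ Mn K d, |u M * ∑ t ∈ G i s, (mobg g (M * (s * t) + h) : ℝ)| ≤ Q ^ (r - i) := by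
      intro M _
      rw [abs_mul]
      calc |u M| * |∑ t ∈ G i s, (mobg g (M * (s * t) + h) : ℝ)|
          ≤ 1 * Q ^ (r - i) := mul_le_mul (hu1 M) (e1 M) (abs_nonneg _) zero_le_one
        _ = Q ^ (r - i) := one_mul _
    refine (sum_le_sum e3).trans ?_
    rw [sum_const, nsmul_eq_mul, card_Mn]
    push_cast
    exact le_rfl
  -- the bound by the type II sums
  have hb1 : ∀ (i : ℕ) (s : K[X]), (i : ℝ) ≤ θ * n → i ≤ r → s ∈ F i →
      |T i s| ≤ (n : ℝ) ^ C * Q ^ n * (2 * Q ^ (-(3 * θ * n))) := by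
    intro i s hi hir hs
    have hs' : s ∈ Mn K i := (mem_filter.mp hs).1
    have hjR : ((r - i : ℕ) : ℝ) = r - i := by rw [Nat.cast_sub hir]
    have hj2 : 127 * θ * n ≤ ((r - i : ℕ) : ℝ) := by
      rw [hjR]
      nlinarith
    have hj1 : 1 ≤ r - i := by
      have : (0 : ℝ) < ((r - i : ℕ) : ℝ) := lt_of_lt_of_le (by positivity) hj2
      exact_mod_cast this
    have hj3 : ((r - i : ℕ) : ℝ) ≤ (1 / 4 - ε) * n := by
      rw [hjR]
      have : (0 : ℝ) ≤ i := Nat.cast_nonneg _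
      nlinarith
    have hAdm : Adm (r - i) h (G i s) := by
      intro A hA
      rw [hG, mem_filter, mem_Mn] at hA
      exact ⟨hA.1.1, hA.1.2, hA.2.1, hA.2.2.of_mul_right_right⟩
    have e1 := h1 n hn1 (r - i) h g (G i s) (fun _ => 1)
      (fun B => if s ∣ B then u (B /ₘ s) else 0) hj1 hj3 h0 hhn hg hgn' hAdm
      (fun p => by rw [abs_one]) (fun B => by
        show |if s ∣ B then u (B /ₘ s) else 0| ≤ 1
        split_ifs
        · exact hu1 _
        · rw [abs_zero]; exact zero_le_one)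
    have e2 : T i s = ∑ p ∈ G i s, ∑ B ∈ Mn K (n - (r - i)),
        (fun _ => (1 : ℝ)) p * (fun B => if s ∣ B then u (B /ₘ s) else 0) B *
          (mobg g (p * B + h) : ℝ) := by
      have e3 : n - (r - i) = d + i := by omega
      rw [e3]
      calc T i s = ∑ M ∈ Mn K d, ∑ t ∈ G i s, u M * (mobg g (t * (M * s) + h) : ℝ) := by
            refine sum_congr rfl fun M _ => ?_
            rw [mul_sum]
            refine sum_congr rfl fun t _ => ?_
            have e4 : M * (s * t) + h = t * (M * s) + h := by ring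
            rw [e4]
        _ = ∑ t ∈ G i s, ∑ M ∈ Mn K d, u M * (mobg g (t * (M * s) + h) : ℝ) := sum_comm
        _ = _ := by
            refine sum_congr rfl fun t _ => ?_
            rw [sum_mul_right d i s hs' u (fun B => (mobg g (t * B + h) : ℝ))]
            refine sum_congr rfl fun B _ => ?_
            rw [one_mul]
    rw [e2]
    refine e1.trans ?_
    refine mul_le_mul_of_nonneg_left ?_ (by positivity)
    have e5 : Q ^ (-((r - i : ℕ) : ℝ) / 32) ≤ Q ^ (-(3 * θ * n)) := by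
      apply Real.rpow_le_rpow_of_exponent_le hQ1
      nlinarith
    have e6 : Q ^ (-c' * n) ≤ Q ^ (-(3 * θ * n)) := by
      apply Real.rpow_le_rpow_of_exponent_le hQ1
      nlinarith
    linarith
  -- each `i`
  have hi : ∀ i ∈ range (r + 1), ∑ s ∈ F i, T i s ≤
      2 * (n : ℝ) ^ C * Q ^ ((1 - 3 * θ / 8) * n) := by
    intro i hi
    have hir : i ≤ r := by have := mem_range.mp hi; omega
    have hpos : (0 : ℝ) < Q ^ ((1 - 3 * θ / 8) * n) := Real.rpow_pos_of_pos hQ0 _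
    by_cases hc : (i : ℝ) ≤ θ * n
    · have e1 : ∑ s ∈ F i, T i s ≤
          ∑ s ∈ F i, (n : ℝ) ^ C * Q ^ n * (2 * Q ^ (-(3 * θ * n))) :=
        sum_le_sum fun s hs => (le_abs_self _).trans (hb1 i s hc hir hs)
      refine e1.trans ?_
      rw [sum_const, nsmul_eq_mul]
      have e2 : ((F i).card : ℝ) ≤ Q ^ (θ * n) := by
        have e3 : (F i).card ≤ (Mn K i).card := card_le_card (filter_subset _ _)
        rw [card_Mn] at e3
        have e4 : ((F i).card : ℝ) ≤ Q ^ i := by rw [hQ]; exact_mod_cast e3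
        refine e4.trans ?_
        rw [← Real.rpow_natCast]
        exact Real.rpow_le_rpow_of_exponent_le hQ1 hc
      have e5 : Q ^ (θ * n) * (Q ^ n * Q ^ (-(3 * θ * n))) ≤ Q ^ ((1 - 3 * θ / 8) * n) := by
        rw [← Real.rpow_natCast, ← Real.rpow_add hQ0, ← Real.rpow_add hQ0]
        apply Real.rpow_le_rpow_of_exponent_le hQ1
        nlinarith
      calc ((F i).card : ℝ) * ((n : ℝ) ^ C * Q ^ n * (2 * Q ^ (-(3 * θ * n))))
          ≤ Q ^ (θ * n) * ((n : ℝ) ^ C * Q ^ n * (2 * Q ^ (-(3 * θ * n)))) :=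
            mul_le_mul_of_nonneg_right e2 (by positivity)
        _ = 2 * (n : ℝ) ^ C * (Q ^ (θ * n) * (Q ^ n * Q ^ (-(3 * θ * n)))) := by ring
        _ ≤ _ := mul_le_mul_of_nonneg_left e5 (by positivity)
    · push Not at hc
      have e1 : ∑ s ∈ F i, T i s ≤ ∑ s ∈ F i, Q ^ d * Q ^ (r - i) :=
        sum_le_sum fun s hs => (le_abs_self _).trans (hb2 i s)
      refine e1.trans ?_
      rw [sum_const, nsmul_eq_mul]
      have e2 : ((F i).card : ℝ) ≤ Q ^ ((i : ℝ) / 2 + θ / 8 * n) :=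
        h2 n hn2 h i h0 hhn.le (by omega)
      have e3 : Q ^ ((i : ℝ) / 2 + θ / 8 * n) * (Q ^ d * Q ^ (r - i)) ≤
          Q ^ ((1 - 3 * θ / 8) * n) := by
        rw [← Real.rpow_natCast, ← Real.rpow_natCast, ← Real.rpow_add hQ0, ← Real.rpow_add hQ0]
        apply Real.rpow_le_rpow_of_exponent_le hQ1
        rw [Nat.cast_sub hir]
        nlinarith
      calc ((F i).card : ℝ) * (Q ^ d * Q ^ (r - i))
          ≤ Q ^ ((i : ℝ) / 2 + θ / 8 * n) * (Q ^ d * Q ^ (r - i)) :=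
            mul_le_mul_of_nonneg_right e2 (by positivity)
        _ ≤ Q ^ ((1 - 3 * θ / 8) * n) := e3
        _ = 1 * Q ^ ((1 - 3 * θ / 8) * n) := (one_mul _).symm
        _ ≤ 2 * (n : ℝ) ^ C * Q ^ ((1 - 3 * θ / 8) * n) := by
            apply mul_le_mul_of_nonneg_right _ hpos.le
            linarith
  rw [hmain]
  refine (sum_le_sum hi).trans ?_
  rw [sum_const, card_range, nsmul_eq_mul]
  have hpos : (0 : ℝ) < Q ^ ((1 - 3 * θ / 8) * n) := Real.rpow_pos_of_pos hQ0 _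
  have h4 := h3 n hn3
  have h5 : ((r + 1 : ℕ) : ℝ) ≤ 2 * n := by
    have : r + 1 ≤ 2 * n := by omega
    exact_mod_cast this
  have h6 : Q ^ ((1 - θ / 8) * n) = (Q ^ (θ / 4)) ^ n * Q ^ ((1 - 3 * θ / 8) * n) := by
    rw [← Real.rpow_natCast, ← Real.rpow_mul hQ0.le, ← Real.rpow_add hQ0]
    congr 1
    ring
  rw [h6]
  calc ((r + 1 : ℕ) : ℝ) * (2 * (n : ℝ) ^ C * Q ^ ((1 - 3 * θ / 8) * n))
      ≤ (2 * n) * (2 * (n : ℝ) ^ C * Q ^ ((1 - 3 * θ / 8) * n)) :=
        mul_le_mul_of_nonneg_right h5 (by positivity)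
    _ = (4 * (n : ℝ) ^ (C + 1)) * Q ^ ((1 - 3 * θ / 8) * n) := by ring
    _ ≤ _ := mul_le_mul_of_nonneg_right h4 hpos.le

end Pool.Agent.H527.PT
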