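import Pool.Agent.H527.PT.Stm
import Pool.Agent.H251.SP.TII

/-!
# Type II sums over squarefree `A` (`S_atii`) (helper117, for helper527, MP_a78e8f_nt)

Adapted from `H251/SP/TIIa.lean` and `H251/SP/TII.lean` (helper251).
-/

set_option autoImplicit false
set_option linter.all false

open Polynomial Finset
open scoped Classical
open Pool.Agent.H985.Chow (mob)
open Pool.Agent.H985.KP (PA mobg)
open Pool.Agent.H694.Typ (Mn Irn mem_Mn mem_Irn card_Mn pol pol_inj pol_degree exists_pol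
  irn_wt_ge irn_one_le wt q_ge)
open Pool.Agent.H251.SP
open Pool.Agent.H251.SP.TII

namespace Pool.Agent.H527.PT

namespace TIIGAux

variable {K : Type} [Field K] [Fintype K]

/-- the mean over the multipliers, with bounds depending on the multiplier -/
theorem V_boundG {ι : Type*} {Bn : Finset ι} {κ : Type*} {I : Finset κ} (hI : 0 < I.card)
    {F : ι → ℝ} (hF : ∀ B ∈ Bn, |F B| ≤ 1) (G : κ → ι → ℝ) (Y : κ → ℝ)
    (hY : ∀ m ∈ I, |∑ B ∈ Bn, F B * G m B| ≤ Y m) :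
    |∑ B ∈ Bn, F B| ≤ (∑ m ∈ I, Y m) / (I.card : ℝ) +
      ∑ B ∈ Bn, |1 - (∑ m ∈ I, G m B) / (I.card : ℝ)| := by
  have hI' : (0 : ℝ) < I.card := by exact_mod_cast hI
  have h1 : ∑ B ∈ Bn, F B = (∑ m ∈ I, ∑ B ∈ Bn, F B * G m B) / I.card +
      ∑ B ∈ Bn, F B * (1 - (∑ m ∈ I, G m B) / (I.card : ℝ)) := by
    rw [sum_comm, sum_div, ← sum_add_distrib]
    refine sum_congr rfl fun B _ => ?_
    rw [← mul_sum]
    ring
  rw [h1]
  refine (abs_add_le _ _).trans (add_le_add ?_ ?_)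
  · rw [abs_div, abs_of_pos hI']
    exact div_le_div_of_nonneg_right ((abs_sum_le_sum_abs _ _).trans (sum_le_sum hY)) hI'.le
  · refine (abs_sum_le_sum_abs _ _).trans (sum_le_sum fun B hB => ?_)
    rw [abs_mul]
    exact mul_le_of_le_one_left (abs_nonneg _) (hF B hB)

theorem card_Adm {j : ℕ} {h : K[X]} {S : Finset K[X]} (hS : Adm j h S) :
    (S.card : ℝ) ≤ (Fintype.card K : ℝ) ^ j := by
  have h1 : S ⊆ Mn K j := fun A hA => mem_Mn.2 ⟨(hS A hA).1, (hS A hA).2.1⟩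
  have h2 := card_le_card h1
  rw [card_Mn] at h2
  exact_mod_cast h2

theorem Gv_nonneg (a : ℕ) (m A h B : K[X]) : 0 ≤ Gv a m A h B := by
  unfold Gv
  split_ifs
  · exact zero_le_one
  · exact Gw_nonneg a m A h B

theorem Gv_le [CharP K 2] {n j u a : ℕ} (hn1 : 1 ≤ n) (hjn : j ≤ n) (hun : u ≤ n) (ha : 4 ≤ a)
    (han : a ≤ n) (hodd : (n + j + u) % 2 = 1) {m A h B : K[X]}
    (hm : m.Monic) (hmu : m.natDegree = u) (hA : A.Monic) (hAj : A.natDegree = j)
    (hh : h.natDegree < n) (hB : B ∈ Mn K (n - j)) : Gv a m A h B ≤ 6 * (n : ℝ) ^ 2 := by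
  unfold Gv
  split_ifs
  · have : (1 : ℝ) ≤ n := by exact_mod_cast hn1
    nlinarith
  · exact Gw_le hjn hun ha han hodd hm hmu hA hAj hh hB

/-- the number of the multipliers dividing one of two polynomials -/
theorem card_badm {j u : ℕ} (hu : 1 ≤ u) {p p' : K[X]} (hp : p ≠ 0) (hp' : p' ≠ 0)
    (hpj : p.natDegree = j) (hpj' : p'.natDegree = j) :
    (((Irn K u).filter (fun m => m ∣ p ∨ m ∣ p')).card : ℝ) ≤ 2 * j := by
  have h1 := card_irn_dvd hu hp
  have h2 := card_irn_dvd hu hp'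
  have h3 : ((Irn K u).filter (fun m => m ∣ p ∨ m ∣ p')).card ≤
      ((Irn K u).filter (fun m => m ∣ p)).card + ((Irn K u).filter (fun m => m ∣ p')).card := by
    rw [filter_or]
    exact card_union_le _ _
  have h4 : ((Irn K u).filter (fun m => m ∣ p ∨ m ∣ p')).card ≤ 2 * j := by omega
  exact_mod_cast h4

/-- the estimate before the choice of the parameters -/
theorem main_ineqG (hvne : S_vne) [CharP K 2] {n L j u a C : ℕ} (hL : 2 * L + j + u = n + 1) (hjn : j ≤ n)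
    (hun : u ≤ n) (hu4 : 4 ≤ u) (huj : u < j) (hja : j < a) (h4a : 4 * a ≤ n) {h g : K[X]}
    {S : Finset K[X]} (hS : Adm j h S) (hh : h.natDegree < n) {c0 c1 η X : ℝ} {α β : K[X] → ℝ}
    (hα : ∀ p, |α p| ≤ 1) (hβ : ∀ B, |β B| ≤ 1)
    (hfb : ∀ (m B : K[X]) (A P : Fin 2 → K[X]), m ∈ Irn K u → B ∈ Mn K (n - j) →
      Frm n j m A (fun _ => h) → Typ (η * n) m A (fun _ => h) B →
      (∀ i, P i ∈ Irn K a ∧ P i ∣ Ds m (A i) h B) →
      |∑ t ∈ Pl K L, ∏ i, (mobg g (A i * (B + m * t ^ 2) + h) : ℝ)| ≤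
        (Fintype.card K : ℝ) ^ ((L : ℝ) - c0 * n))
    (hbf : ∀ (m : K[X]) (A : Fin 2 → K[X]), m ∈ Irn K u → Frm n j m A (fun _ => h) →
      (∀ i l, i ≠ l →
        derivative (m * A i * h) * A l ^ 2 ≠ derivative (m * A l * h) * A i ^ 2) →
      (((Mn K (n - j)).filter (fun f => ¬ Typ (η * n) m A (fun _ => h) f)).card : ℝ) ≤
        (Fintype.card K : ℝ) ^ (n - j) *
          (2 / (Fintype.card K : ℝ) ^ u + (Fintype.card K : ℝ) ^ (-c1 * n)))
    (hwm : ∑ A₁ ∈ S, ∑ A₂ ∈ S, ∑ f ∈ Mn K (n - j),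
        (1 - (∑ m ∈ Irn K u, Gv a m A₁ h f * Gv a m A₂ h f) / ((Irn K u).card : ℝ)) ^ 2 ≤
      (n : ℝ) ^ C * (Fintype.card K : ℝ) ^ (n + j) * X) :
    (∑ p ∈ S, ∑ B ∈ Mn K (n - j),
      α p * β B * (mobg g (p * B + h) : ℝ)) ^ 2 ≤
    ((Fintype.card K : ℝ) ^ n) ^ 2 * ((1 / (Fintype.card K : ℝ) ^ j + 36 * (n : ℝ) ^ 4 *
      ((Fintype.card K : ℝ) ^ (-c0 * n) + (2 / (Fintype.card K : ℝ) ^ u +
        (Fintype.card K : ℝ) ^ (-c1 * n))) + √((n : ℝ) ^ C * X)) +
        36 * (n : ℝ) ^ 4 * (4 * (n : ℝ) ^ 2 / (Fintype.card K : ℝ) ^ u)) := by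
  set Q : ℝ := (Fintype.card K : ℝ) with hQ
  have hQ2 : (2 : ℝ) ≤ Q := q_ge
  have hQ0 : (0 : ℝ) < Q := by linarith
  have hn1 : 1 ≤ n := by omega
  have ha4 : 4 ≤ a := by omega
  have han : a ≤ n := by omega
  have hMc : ((Mn K (n - j)).card : ℝ) = Q ^ (n - j) := by
    rw [card_Mn]; push_cast; rfl
  have hIAc : (S.card : ℝ) ≤ Q ^ j := card_Adm hS
  have hu0 : 0 < (Irn K u).card := by
    have h1 := nu_ge (K := K) hu4
    by_contra hcon
    have h2 : (Irn K u).card = 0 := by omega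
    rw [h2, Nat.cast_zero, zero_div] at h1
    have h3 : (0 : ℝ) < 1 / (2 * (u : ℝ)) := by
      have : (0 : ℝ) < u := by exact_mod_cast (by omega : 0 < u)
      positivity
    linarith
  set Y0 : ℝ := 36 * (n : ℝ) ^ 4 * (Q ^ (n - j) * (Q ^ (-c0 * n) + (2 / Q ^ u + Q ^ (-c1 * n))))
    with hY0def
  have hY00 : 0 ≤ Y0 := by
    rw [hY0def]
    have := Real.rpow_nonneg hQ0.le (-c0 * n)
    have := Real.rpow_nonneg hQ0.le (-c1 * n)
    positivity
  set Y : ℝ := Y0 + 36 * (n : ℝ) ^ 4 * Q ^ (n - j) * (4 * (n : ℝ) ^ 2 / Q ^ u) with hY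
  have hY0 : 0 ≤ Y := by rw [hY]; positivity
  have hodd : (n + j + u) % 2 = 1 := by omega
  -- the pairs
  have hV : ∀ p ∈ S, ∀ p' ∈ S, p ≠ p' →
      |∑ B ∈ Mn K (n - j), (mobg g (p * B + h) : ℝ) * (mobg g (p' * B + h) : ℝ)| ≤
      Y + ∑ B ∈ Mn K (n - j),
        |1 - (∑ m ∈ Irn K u, Gv a m p h B * Gv a m p' h B) / ((Irn K u).card : ℝ)| := by
    intro p hp p' hp' hpp
    obtain ⟨hp1, hp2, hp3, hp4⟩ := hS p hp
    obtain ⟨hp1', hp2', hp3', hp4'⟩ := hS p' hp'
    have hVG := V_boundG (Bn := Mn K (n - j)) (I := Irn K u) hu0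
      (F := fun B => (mobg g (p * B + h) : ℝ) * (mobg g (p' * B + h) : ℝ))
      (fun B _ => by
        rw [abs_mul]
        exact mul_le_one₀ (mobg_abs _ _) (abs_nonneg _) (mobg_abs _ _))
      (fun m B => Gv a m p h B * Gv a m p' h B)
      (fun m => Y0 + if (m ∣ p ∨ m ∣ p') then 36 * (n : ℝ) ^ 4 * Q ^ (n - j) else 0)
      (fun m hm => by
        have hm1 := mem_Irn.1 hm
        by_cases hbad : m ∣ p ∨ m ∣ p'
        · rw [if_pos hbad]
          have hb : ∀ B ∈ Mn K (n - j), |(mobg g (p * B + h) : ℝ) * (mobg g (p' * B + h) : ℝ) *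
              (Gv a m p h B * Gv a m p' h B)| ≤ 36 * (n : ℝ) ^ 4 := by
            intro B hB
            have g1 := Gv_le hn1 hjn hun ha4 han hodd hm1.1 hm1.2.1 hp1 hp2 hh hB
            have g2 := Gv_le hn1 hjn hun ha4 han hodd hm1.1 hm1.2.1 hp1' hp2' hh hB
            have g3 := Gv_nonneg a m p h B
            have g4 := Gv_nonneg a m p' h B
            rw [abs_mul, abs_mul, abs_of_nonneg (mul_nonneg g3 g4)]
            have g5 : |(mobg g (p * B + h) : ℝ)| * |(mobg g (p' * B + h) : ℝ)| ≤ 1 :=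
              mul_le_one₀ (mobg_abs _ _) (abs_nonneg _) (mobg_abs _ _)
            have g6 : Gv a m p h B * Gv a m p' h B ≤ (6 * (n : ℝ) ^ 2) * (6 * (n : ℝ) ^ 2) :=
              mul_le_mul g1 g2 g4 (by positivity)
            calc |(mobg g (p * B + h) : ℝ)| * |(mobg g (p' * B + h) : ℝ)| *
                  (Gv a m p h B * Gv a m p' h B) ≤ 1 * ((6 * (n : ℝ) ^ 2) * (6 * (n : ℝ) ^ 2)) :=
                  mul_le_mul g5 g6 (mul_nonneg g3 g4) (by norm_num)
              _ = _ := by ring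
          refine (abs_sum_le_sum_abs _ _).trans ((sum_le_sum hb).trans ?_)
          rw [sum_const, nsmul_eq_mul, hMc]
          linarith
        · rw [if_neg hbad, add_zero]
          have hnp : ¬ m ∣ p := fun hd => hbad (Or.inl hd)
          have hnp' : ¬ m ∣ p' := fun hd => hbad (Or.inr hd)
          have hGv : ∀ B, Gv a m p h B * Gv a m p' h B = Gw a m p h B * Gw a m p' h B := by
            intro B
            unfold Gv
            rw [if_neg hnp, if_neg hnp']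
          have hFrm : Frm n j m ![p, p'] (fun _ => h) := by
            intro i
            fin_cases i
            · exact ⟨hp1, hp2, hp3, hp4, hh, hnp⟩
            · exact ⟨hp1', hp2', hp3', hp4', hh, hnp'⟩
          have hdeg : p.natDegree = p'.natDegree := by rw [hp2, hp2']
          have hder : ∀ i l : Fin 2, i ≠ l → derivative (m * (![p, p'] : Fin 2 → K[X]) i * h) *
              (![p, p'] : Fin 2 → K[X]) l ^ 2 ≠
              derivative (m * (![p, p'] : Fin 2 → K[X]) l * h) *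
                (![p, p'] : Fin 2 → K[X]) i ^ 2 := by
            intro i l hil
            fin_cases i <;> fin_cases l
            · exact absurd rfl hil
            · exact hvne K m h p p' hm1.1 hm1.2.2 hp1 hp1' hdeg hp3 hp3' hp4 hp4' hnp hnp' hpp
            · exact hvne K m h p' p hm1.1 hm1.2.2 hp1' hp1 hdeg.symm hp3' hp3 hp4' hp4 hnp' hnp
                hpp.symm
            · exact absurd rfl hil
          have h1 := W_bound (g := g) hL hjn hun ha4 han hm1.1 hm1.2.1 hp1 hp2 hp1' hp2' hh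
            (Real.rpow_nonneg hQ0.le ((L : ℝ) - c0 * n)) (Typ (η * n) m ![p, p'] (fun _ => h))
            (fun B hB hT hG1 hG2 => by
              obtain ⟨P1, hP1, hP1'⟩ := exists_P hG1
              obtain ⟨P2, hP2, hP2'⟩ := exists_P hG2
              have h2 := hfb m B ![p, p'] ![P1, P2] hm hB hFrm hT (by
                intro i
                fin_cases i
                · exact ⟨hP1, hP1'⟩
                · exact ⟨hP2, hP2'⟩)
              simp only [Fin.prod_univ_two] at h2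
              exact h2)
            (hbf m ![p, p'] hm hFrm hder)
          have h2 : Q ^ ((L : ℝ) - c0 * n) = Q ^ L * Q ^ (-c0 * n) := by
            rw [← Real.rpow_natCast Q L, ← Real.rpow_add hQ0]
            congr 1; ring
          rw [h2] at h1
          have hQL : (0 : ℝ) < Q ^ L := by positivity
          have h3 : 36 * (n : ℝ) ^ 4 * (Q ^ (n - j) * (Q ^ L * Q ^ (-c0 * n)) +
              Q ^ (n - j) * (2 / Q ^ u + Q ^ (-c1 * n)) * Q ^ L) = Y0 * Q ^ L := by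
            rw [hY0def]; ring
          rw [h3] at h1
          have h4 := le_of_mul_le_mul_right h1 hQL
          rw [sum_congr rfl (fun B _ => by rw [hGv B])]
          exact h4)
    refine hVG.trans (add_le_add ?_ le_rfl)
    have hI' : (0 : ℝ) < ((Irn K u).card : ℝ) := by exact_mod_cast hu0
    rw [sum_add_distrib, sum_const, nsmul_eq_mul, ← sum_filter, sum_const, nsmul_eq_mul,
      div_le_iff₀ hI', hY]
    have hbc := card_badm (K := K) (u := u) (by omega : 1 ≤ u) hp1.ne_zero hp1'.ne_zero hp2 hp2'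
    have hnu := nu_ge (K := K) hu4
    have hQu : (0 : ℝ) < Q ^ u := by positivity
    have hu0' : (0 : ℝ) < u := by exact_mod_cast (by omega : 0 < u)
    have hnu2 : Q ^ u / (2 * u) ≤ ((Irn K u).card : ℝ) := by
      rw [le_div_iff₀ hQu] at hnu
      calc Q ^ u / (2 * u) = 1 / (2 * (u : ℝ)) * Q ^ u := by ring
        _ ≤ _ := hnu
    have hjR : (j : ℝ) ≤ n := by exact_mod_cast hjn
    have huR : (u : ℝ) ≤ n := by exact_mod_cast hun
    have hj0 : (0 : ℝ) ≤ j := Nat.cast_nonneg _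
    have hju : (2 : ℝ) * j ≤ 4 * (n : ℝ) ^ 2 / Q ^ u * ((Irn K u).card : ℝ) := by
      have e1 : 4 * (n : ℝ) ^ 2 / Q ^ u * (Q ^ u / (2 * u)) = 2 * (n : ℝ) ^ 2 / u := by
        field_simp
        ring
      have e2 : 4 * (n : ℝ) ^ 2 / Q ^ u * (Q ^ u / (2 * u)) ≤
          4 * (n : ℝ) ^ 2 / Q ^ u * ((Irn K u).card : ℝ) :=
        mul_le_mul_of_nonneg_left hnu2 (by positivity)
      refine le_trans ?_ e2
      rw [e1, le_div_iff₀ hu0']
      nlinarith [mul_le_mul hjR huR hu0'.le (by positivity : (0 : ℝ) ≤ n)]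
    have hfin : (((Irn K u).filter (fun m => m ∣ p ∨ m ∣ p')).card : ℝ) *
        (36 * (n : ℝ) ^ 4 * Q ^ (n - j)) ≤
        4 * (n : ℝ) ^ 2 / Q ^ u * ((Irn K u).card : ℝ) * (36 * (n : ℝ) ^ 4 * Q ^ (n - j)) :=
      mul_le_mul_of_nonneg_right (hbc.trans hju) (by positivity)
    calc ((Irn K u).card : ℝ) * Y0 + (((Irn K u).filter (fun m => m ∣ p ∨ m ∣ p')).card : ℝ) *
        (36 * (n : ℝ) ^ 4 * Q ^ (n - j)) ≤ ((Irn K u).card : ℝ) * Y0 +
        4 * (n : ℝ) ^ 2 / Q ^ u * ((Irn K u).card : ℝ) * (36 * (n : ℝ) ^ 4 * Q ^ (n - j)) :=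
          by linarith
      _ = _ := by ring
  have hbil := bilinear (IA := S) (Bn := Mn K (n - j)) (α := α) (β := β)
    (φ := fun p B => (mobg g (p * B + h) : ℝ))
    (R := fun A₁ A₂ f =>
      1 - (∑ m ∈ Irn K u, Gv a m A₁ h f * Gv a m A₂ h f) / ((Irn K u).card : ℝ))
    (Y := Y) (Z := (n : ℝ) ^ C * Q ^ (n + j) * X) hα hβ (fun _ _ => mobg_abs _ _) hY0 hV hwm
  refine hbil.trans ?_
  rw [hMc]
  have hQn : Q ^ n = Q ^ j * Q ^ (n - j) := by
    rw [← pow_add]; congr 1; omega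
  have hA0 : (0 : ℝ) < Q ^ (n - j) := by positivity
  have hB0 : (0 : ℝ) < Q ^ j := by positivity
  have hX0 : 0 ≤ (n : ℝ) ^ C * Q ^ (n + j) * X := by
    refine le_trans ?_ hwm
    exact sum_nonneg fun _ _ => sum_nonneg fun _ _ => sum_nonneg fun _ _ => sq_nonneg _
  have h1 : √((S.card : ℝ) ^ 2 * Q ^ (n - j) * ((n : ℝ) ^ C * Q ^ (n + j) * X)) ≤
      Q ^ (n + j) * √((n : ℝ) ^ C * X) := by
    have h2 : (S.card : ℝ) ^ 2 * Q ^ (n - j) * ((n : ℝ) ^ C * Q ^ (n + j) * X) ≤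
        (Q ^ (n + j)) ^ 2 * ((n : ℝ) ^ C * X) := by
      have h3 : (S.card : ℝ) ^ 2 ≤ (Q ^ j) ^ 2 := pow_le_pow_left₀ (Nat.cast_nonneg _) hIAc 2
      calc (S.card : ℝ) ^ 2 * Q ^ (n - j) * ((n : ℝ) ^ C * Q ^ (n + j) * X) ≤
          (Q ^ j) ^ 2 * Q ^ (n - j) * ((n : ℝ) ^ C * Q ^ (n + j) * X) := by
            apply mul_le_mul_of_nonneg_right _ hX0
            exact mul_le_mul_of_nonneg_right h3 hA0.le
        _ = _ := by
            rw [pow_add, hQn]; ring
    refine (Real.sqrt_le_sqrt h2).trans ?_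
    rw [Real.sqrt_mul (by positivity), Real.sqrt_sq (by positivity)]
  have h4 : (S.card : ℝ) * Q ^ (n - j) ≤ Q ^ j * Q ^ (n - j) :=
    mul_le_mul_of_nonneg_right hIAc hA0.le
  have h5 : (S.card : ℝ) ^ 2 * Y ≤ (Q ^ j) ^ 2 * Y :=
    mul_le_mul_of_nonneg_right (pow_le_pow_left₀ (Nat.cast_nonneg _) hIAc 2) hY0
  calc Q ^ (n - j) * ((S.card : ℝ) * Q ^ (n - j) + (S.card : ℝ) ^ 2 * Y +
        √((S.card : ℝ) ^ 2 * Q ^ (n - j) * ((n : ℝ) ^ C * Q ^ (n + j) * X))) ≤
      Q ^ (n - j) * (Q ^ j * Q ^ (n - j) + (Q ^ j) ^ 2 * Y + Q ^ (n + j) * √((n : ℝ) ^ C * X)) := by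
        apply mul_le_mul_of_nonneg_left _ hA0.le
        linarith
    _ = _ := by
        rw [hY, hY0def, pow_add, hQn]
        field_simp
        ring

/-- the size of the multipliers -/
theorem unum {Q N J U e1 c : ℝ} {u : ℕ} (hQ : 2 ≤ Q) (hU : U = u) (hJ0 : 0 ≤ J) (hN0 : 0 ≤ N)
    (hu2 : min (J / 2) (e1 * N / 2) - 2 ≤ U) (hce : 2 * c ≤ e1 / 4) :
    1 / Q ^ u ≤ Q * (Q ^ (-J / 16) + Q ^ (-(2 * c) * N)) := by
  have hQ0 : 0 < Q := by linarith
  have hQ1 : 1 ≤ Q := by linarith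
  have hU0 : 0 ≤ U := by rw [hU]; positivity
  set y1 := Q ^ (-J / 16) with hy1
  set y2 := Q ^ (-(2 * c) * N) with hy2
  have hy10 : 0 < y1 := Real.rpow_pos_of_pos hQ0 _
  have hy20 : 0 < y2 := Real.rpow_pos_of_pos hQ0 _
  have hmono : ∀ {a b : ℝ}, a ≤ b → Q ^ a ≤ Q ^ b := fun h => Real.rpow_le_rpow_of_exponent_le hQ1 h
  have bu : Q ^ (-U / 2) ≤ Q * (y1 + y2) := by
    rcases le_total (J / 2) (e1 * N / 2) with h | h
    · rw [min_eq_left h] at hu2
      have h1 : Q ^ (-U / 2) ≤ Q ^ (1 + -J / 16) := hmono (by linarith)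
      rw [Real.rpow_add hQ0, Real.rpow_one] at h1
      nlinarith
    · rw [min_eq_right h] at hu2
      have h1 : Q ^ (-U / 2) ≤ Q ^ (1 + -(2 * c) * N) := hmono (by nlinarith)
      rw [Real.rpow_add hQ0, Real.rpow_one] at h1
      nlinarith
  have h1 : 1 / Q ^ u = Q ^ (-U) := by
    rw [Real.rpow_neg hQ0.le, hU, Real.rpow_natCast, one_div]
  have h2 : Q ^ (-U) ≤ Q ^ (-U / 2) := hmono (by linarith)
  rw [h1]
  linarith

/-- numerics: the extra term -/
lemma extra_num {Q x y : ℝ} {u C : ℕ} (hQ0 : 0 < Q) (hx : 100 ≤ x) (hxQ : 2 * Q ≤ x)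
    (hy : 0 < y) (h : 1 / Q ^ u ≤ Q * y) :
    36 * x ^ 4 * (4 * x ^ 2 / Q ^ u) ≤ x ^ (C + 9) * y := by
  have hx0 : 0 < x := by linarith
  have h1 : 36 * x ^ 4 * (4 * x ^ 2 / Q ^ u) = 144 * x ^ 6 * (1 / Q ^ u) := by
    ring
  rw [h1]
  have h2 : 144 * x ^ 6 * (1 / Q ^ u) ≤ 144 * x ^ 6 * (Q * y) :=
    mul_le_mul_of_nonneg_left h (by positivity)
  refine h2.trans ?_
  have h4 : x ^ 9 ≤ x ^ (C + 9) := pow_le_pow_right₀ (by linarith) (by omega)
  have h7 : (100 : ℝ) * 100 ≤ x * x := mul_le_mul hx hx (by norm_num) hx0.le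
  have h6 : (100 : ℝ) * 100 * x ≤ x ^ 3 := by
    calc (100 : ℝ) * 100 * x ≤ (x * x) * x := mul_le_mul_of_nonneg_right h7 hx0.le
      _ = x ^ 3 := by ring
  have h5 : 144 * Q ≤ x ^ 3 := by linarith
  have h3 : 144 * x ^ 6 * Q ≤ x ^ (C + 9) := by
    calc 144 * x ^ 6 * Q = x ^ 6 * (144 * Q) := by ring
      _ ≤ x ^ 6 * x ^ 3 := mul_le_mul_of_nonneg_left h5 (by positivity)
      _ = x ^ 9 := by ring
      _ ≤ _ := h4
  calc 144 * x ^ 6 * (Q * y) = (144 * x ^ 6 * Q) * y := by ring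
    _ ≤ _ := mul_le_mul_of_nonneg_right h3 hy.le

/-- numerics: the sum of the two terms -/
lemma sum2_num {x y : ℝ} {C : ℕ} (hx : 100 ≤ x) (hy : 0 < y) :
    x ^ (C + 8) * y + x ^ (C + 9) * y ≤ x ^ (C + 10) * y := by
  rw [← add_mul]
  refine mul_le_mul_of_nonneg_right ?_ hy.le
  have h1 : x ^ (C + 8) ≤ x ^ (C + 9) := pow_le_pow_right₀ (by linarith) (by omega)
  have h2 : x ^ (C + 10) = x ^ (C + 9) * x := by rw [← pow_succ]
  have hx0 : 0 < x := by linarith
  have h3 : 0 < x ^ (C + 9) := by positivity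
  rw [h2]
  have h4 : x ^ (C + 9) * 2 ≤ x ^ (C + 9) * x := mul_le_mul_of_nonneg_left (by linarith) h3.le
  linarith

end TIIGAux

open TIIGAux in
theorem atii : S_atii := by
  intro hvne hf hb hw
  intro K _ _ _ ε hε
  set Q : ℝ := (Fintype.card K : ℝ) with hQ
  have hQ2 : (2 : ℝ) ≤ Q := q_ge
  have hQ0 : (0 : ℝ) < Q := by linarith
  have hQ1 : (1 : ℝ) ≤ Q := by linarith
  set e1 : ℝ := min ε (1 / 20) / 2 with he1
  have he10 : 0 < e1 := by
    rw [he1]; exact half_pos (lt_min hε (by norm_num))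
  have he1ε : e1 ≤ ε / 2 := by
    rw [he1]; linarith [min_le_left ε (1 / 20)]
  have he140 : e1 ≤ 1 / 40 := by
    rw [he1]; linarith [min_le_right ε (1 / 20)]
  obtain ⟨η, c0, hη, hc0, n1, hfb⟩ := hf K 2 (e1 / 4) (by norm_num) (by linarith)
  obtain ⟨c1, hc1, n2, hbf⟩ := hb K 2 (e1 / 4) η (by linarith) hη
  obtain ⟨C, hwm⟩ := hw K
  set c : ℝ := min (min (c0 / 2) (c1 / 2)) (min (min (e1 / 8) (ε / 4)) η) with hc
  have hcpos : 0 < c := by
    rw [hc]
    refine lt_min (lt_min ?_ ?_) (lt_min (lt_min ?_ ?_) hη) <;> linarith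
  have hcc0 : 2 * c ≤ c0 := by
    have : c ≤ c0 / 2 := (min_le_left _ _).trans (min_le_left _ _)
    linarith
  have hcc1 : 2 * c ≤ c1 := by
    have : c ≤ c1 / 2 := (min_le_left _ _).trans (min_le_right _ _)
    linarith
  have hcce : 2 * c ≤ e1 / 4 := by
    have : c ≤ e1 / 8 := (min_le_right _ _).trans ((min_le_left _ _).trans (min_le_left _ _))
    linarith
  have hccε : 2 * c ≤ ε / 2 := by
    have : c ≤ ε / 4 := (min_le_right _ _).trans ((min_le_left _ _).trans (min_le_right _ _))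
    linarith
  have hccη : c ≤ η := (min_le_right _ _).trans (min_le_right _ _)
  -- the lower bound for `n`
  obtain ⟨n3, hn3⟩ := exists_nat_ge (max (max 100 (2 * Q + 2)) (max (Q ^ 2) (max (20 / e1) (4 / ε))))
  refine ⟨C + 10, c, hcpos, max (max n1 n2) n3, ?_⟩
  intro n hn j h g S α β hj1 hjε h0 hh hg hgc hS hα hβ
  have hn1 : n1 ≤ n := (le_max_left _ _).trans ((le_max_left _ _).trans hn)
  have hn2 : n2 ≤ n := (le_max_right _ _).trans ((le_max_left _ _).trans hn)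
  have hn3' : (n3 : ℝ) ≤ n := by exact_mod_cast (le_max_right _ _).trans hn
  have hnmax := hn3.trans hn3'
  have hn100 : (100 : ℝ) ≤ n := ((le_max_left _ _).trans (le_max_left _ _)).trans hnmax
  have hnQ : 2 * Q + 2 ≤ n := ((le_max_right _ _).trans (le_max_left _ _)).trans hnmax
  have hnQ2 : Q ^ 2 ≤ n := ((le_max_left _ _).trans (le_max_right _ _)).trans hnmax
  have hne1 : 20 / e1 ≤ n :=
    (((le_max_left _ _).trans (le_max_right _ _)).trans (le_max_right _ _)).trans hnmax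
  have hnε : 4 / ε ≤ n :=
    (((le_max_right _ _).trans (le_max_right _ _)).trans (le_max_right _ _)).trans hnmax
  have hne1' : 20 ≤ e1 * n := by
    rw [div_le_iff₀ he10] at hne1; linarith
  have hnε' : 4 ≤ ε * n := by
    rw [div_le_iff₀ hε] at hnε; linarith
  have hn0 : (0 : ℝ) < n := by linarith
  have hjn4 : (j : ℝ) ≤ n / 4 - 4 := by nlinarith
  have hjn : j ≤ n := by
    have : (j : ℝ) ≤ n := by linarith
    exact_mod_cast this
  have hj0 : (0 : ℝ) ≤ j := Nat.cast_nonneg _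
  have hMc : ((Mn K (n - j)).card : ℝ) = Q ^ (n - j) := by
    rw [card_Mn]; push_cast; rfl
  have hQn : Q ^ n = Q ^ j * Q ^ (n - j) := by
    rw [← pow_add]; congr 1; omega
  have hA0 : (0 : ℝ) < Q ^ (n - j) := by positivity
  have hterm : ∀ p B : K[X], |α p * β B * (mobg g (p * B + h) : ℝ)| ≤ 1 := by
    intro p B
    rw [abs_mul, abs_mul]
    exact mul_le_one₀ (mul_le_one₀ (hα p) (abs_nonneg _) (hβ B)) (abs_nonneg _) (mobg_abs _ _)
  have hinner : ∀ p : K[X], |∑ B ∈ Mn K (n - j), α p * β B * (mobg g (p * B + h) : ℝ)| ≤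
      Q ^ (n - j) := by
    intro p
    refine (abs_sum_le_sum_abs _ _).trans ((sum_le_sum fun B _ => hterm p B).trans ?_)
    rw [sum_const, nsmul_eq_mul, mul_one, hMc]
  have hy1 : 0 < Q ^ (-(j : ℝ) / 32) := Real.rpow_pos_of_pos hQ0 _
  have hy2 : 0 < Q ^ (-c * n) := Real.rpow_pos_of_pos hQ0 _
  by_cases hj40 : j < 40
  · -- trivial bound
    have h1 : |∑ p ∈ S, ∑ B ∈ Mn K (n - j), α p * β B * (mobg g (p * B + h) : ℝ)| ≤ Q ^ n := by
      refine (abs_sum_le_sum_abs _ _).trans ((sum_le_sum fun p _ => hinner p).trans ?_)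
      rw [sum_const, nsmul_eq_mul, hQn]
      exact mul_le_mul_of_nonneg_right (card_Adm hS) hA0.le
    refine h1.trans ?_
    have h2 : 1 ≤ (n : ℝ) ^ (C + 10) * Q ^ (-(j : ℝ) / 32) := by
      have h3 : Q ^ (-2 : ℝ) ≤ Q ^ (-(j : ℝ) / 32) := by
        apply Real.rpow_le_rpow_of_exponent_le hQ1
        have : (j : ℝ) ≤ 40 := by exact_mod_cast hj40.le
        linarith
      have h4 : Q ^ (-2 : ℝ) = (Q ^ 2)⁻¹ := by
        rw [Real.rpow_neg hQ0.le]
        norm_cast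
      rw [h4] at h3
      have h5 : Q ^ 2 ≤ (n : ℝ) ^ (C + 10) := by
        refine hnQ2.trans ?_
        exact le_self_pow₀ (by linarith) (by omega)
      calc (1 : ℝ) = Q ^ 2 * (Q ^ 2)⁻¹ := by
            rw [mul_inv_cancel₀ (by positivity)]
        _ ≤ (n : ℝ) ^ (C + 10) * Q ^ (-(j : ℝ) / 32) :=
            mul_le_mul h5 h3 (by positivity) (by positivity)
    have hQnpos : (0 : ℝ) < Q ^ n := by positivity
    have h6 : 0 ≤ (n : ℝ) ^ (C + 10) * Q ^ n * Q ^ (-c * n) := by positivity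
    calc Q ^ n = Q ^ n * 1 := by ring
      _ ≤ Q ^ n * ((n : ℝ) ^ (C + 10) * Q ^ (-(j : ℝ) / 32)) :=
          mul_le_mul_of_nonneg_left h2 hQnpos.le
      _ ≤ _ := by
          have : (n : ℝ) ^ (C + 10) * Q ^ n * (Q ^ (-(j : ℝ) / 32) + Q ^ (-c * n)) =
            Q ^ n * ((n : ℝ) ^ (C + 10) * Q ^ (-(j : ℝ) / 32)) +
              (n : ℝ) ^ (C + 10) * Q ^ n * Q ^ (-c * n) := by ring
          rw [this]; linarith
  · rw [not_lt] at hj40
    have hj40' : (40 : ℝ) ≤ j := by exact_mod_cast hj40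
    -- the parameters
    set w : ℝ := min ((j : ℝ) / 2) (e1 * n / 2) with hwdef
    have hw10 : 10 ≤ w := le_min (by linarith) (by linarith)
    have hwj : w ≤ j / 2 := min_le_left _ _
    have hwe : w ≤ e1 * n / 2 := min_le_right _ _
    set v : ℕ := ⌊w⌋₊ with hv
    have hv1 : (v : ℝ) ≤ w := Nat.floor_le (by linarith)
    have hv2 : w < v + 1 := Nat.lt_floor_add_one w
    have hv9 : 9 ≤ v := by
      have : (9 : ℝ) < v := by linarith
      exact_mod_cast this.le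
    obtain ⟨u, huv, huv', hodd⟩ : ∃ u : ℕ, u ≤ v ∧ v ≤ u + 1 ∧ (n + j + u) % 2 = 1 := by
      by_cases hp : (n + j + v) % 2 = 1
      · exact ⟨v, le_rfl, by omega, hp⟩
      · exact ⟨v - 1, by omega, by omega, by omega⟩
    have hu4 : 4 ≤ u := by omega
    have huvR : (u : ℝ) ≤ v := by exact_mod_cast huv
    have huvR' : (v : ℝ) ≤ u + 1 := by exact_mod_cast huv'
    have huj2 : (u : ℝ) ≤ j / 2 := by linarith
    have hue : (u : ℝ) ≤ e1 * n / 2 := by linarith
    have huj : u < j := by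
      have : (u : ℝ) < j := by linarith
      exact_mod_cast this
    have hun : u ≤ n := by omega
    obtain ⟨L, hL⟩ : ∃ L : ℕ, 2 * L + j + u = n + 1 := by
      have h1 : j + u ≤ n + 1 := by
        have : (j : ℝ) + u ≤ n + 1 := by linarith
        exact_mod_cast this
      exact ⟨(n + 1 - j - u) / 2, by omega⟩
    have hLR : 2 * (L : ℝ) + j + u = n + 1 := by exact_mod_cast hL
    set a : ℕ := j + ⌈e1 * n⌉₊ with ha
    have ha1 : (j : ℝ) + e1 * n ≤ a := by
      rw [ha]; push_cast; linarith [Nat.le_ceil (e1 * (n : ℝ))]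
    have ha2 : (a : ℝ) < j + e1 * n + 1 := by
      rw [ha]; push_cast; linarith [Nat.ceil_lt_add_one (show 0 ≤ e1 * (n : ℝ) by positivity)]
    have hja : j < a := by
      have : (j : ℝ) < a := by linarith
      exact_mod_cast this
    have hen : e1 * n ≤ ε / 2 * n := mul_le_mul_of_nonneg_right he1ε hn0.le
    have hen40 : e1 * n ≤ 1 / 40 * n := mul_le_mul_of_nonneg_right he140 hn0.le
    have h4a : 4 * a ≤ n := by
      have : 4 * (a : ℝ) ≤ n := by nlinarith
      exact_mod_cast this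
    have hL1 : 1 ≤ L := by
      have : (1 : ℝ) ≤ L := by linarith
      exact_mod_cast this
    -- the window bound
    have hfb' : ∀ (m B : K[X]) (A P : Fin 2 → K[X]), m ∈ Irn K u → B ∈ Mn K (n - j) →
        Frm n j m A (fun _ => h) → Typ (η * n) m A (fun _ => h) B →
        (∀ i, P i ∈ Irn K a ∧ P i ∣ Ds m (A i) h B) →
        |∑ t ∈ Pl K L, ∏ i, (mobg g (A i * (B + m * t ^ 2) + h) : ℝ)| ≤
          Q ^ ((L : ℝ) - c0 * n) := by
      intro m B A P hm hB hFrm hT hP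
      obtain ⟨hm1, hm2, hm3⟩ := mem_Irn.1 hm
      obtain ⟨hB1, hB2⟩ := mem_Mn.1 hB
      have h1 := hfb n hn1 L j u m B 1 A (fun _ => h) (fun _ => g) P hL hm1 hm3 hm2 hB1
        (by omega) monic_one (by rw [natDegree_one]; simp only [Nat.cast_zero]; positivity) hFrm
        (fun _ => ⟨hg, hgc.trans (mul_le_mul_of_nonneg_right hccη hn0.le)⟩) hT
        (fun i => by
          obtain ⟨hP1, hP2⟩ := hP i
          obtain ⟨hP3, hP4, hP5⟩ := mem_Irn.1 hP1
          refine ⟨hP3, hP5, hP2, ?_, ?_, ?_⟩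
          · rw [hP4]; linarith
          · rw [hP4]; linarith
          · rw [hP4]; linarith)
      have hset : {t : K[X] | t.degree < (L : WithBot ℕ) ∧ (1 : K[X]) ∣ t} = ↑(Pl K L) := by
        ext t
        simp only [Set.mem_setOf_eq, mem_coe, mem_Pl, one_dvd, and_true]
      rw [hset, finsum_mem_coe_finset] at h1
      exact h1
    have hbf' : ∀ (m : K[X]) (A : Fin 2 → K[X]), m ∈ Irn K u → Frm n j m A (fun _ => h) →
        (∀ i l, i ≠ l →
          derivative (m * A i * h) * A l ^ 2 ≠ derivative (m * A l * h) * A i ^ 2) →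
        (((Mn K (n - j)).filter (fun f => ¬ Typ (η * n) m A (fun _ => h) f)).card : ℝ) ≤
          Q ^ (n - j) * (2 / Q ^ u + Q ^ (-c1 * n)) := by
      intro m A hm hFrm hder
      obtain ⟨hm1, hm2, hm3⟩ := mem_Irn.1 hm
      have h1 := hbf n hn2 L j u m A (fun _ => h) hL (by linarith) hm1 hm3 hm2 hFrm hder
      push_cast at h1
      exact h1
    have hwm' := hwm n L j u a h S hL hL1 hu4 huj hja h4a h0 hh hS
    have hmain := main_ineqG hvne (g := g) hL hjn hun hu4 huj hja h4a hS hh hα hβ hfb' hbf' hwm'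
    have hnum := final_num (Q := Q) (N := n) (J := j) (U := u) (A := a) (c0 := c0) (c1 := c1)
      (e1 := e1) (ε := ε) (c := c) (n := n) (j := j) (u := u) (C := C) hQ2 rfl rfl rfl
      (by linarith) hnQ huj2 (by linarith) ha2.le hjε he1ε hcc0 hcc1 hcce hccε
    have hunum := unum (Q := Q) (N := n) (J := j) (U := u) (e1 := e1) (c := c) (u := u) hQ2 rfl
      (Nat.cast_nonneg _) (Nat.cast_nonneg _) (by linarith) hcce
    -- the main part
    set S1 : ℝ := ∑ p ∈ S, ∑ B ∈ Mn K (n - j),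
      α p * β B * (mobg g (p * B + h) : ℝ) with hS1
    have hy3 : 0 < Q ^ (-(j : ℝ) / 16) := Real.rpow_pos_of_pos hQ0 _
    have hy4 : 0 < Q ^ (-(2 * c) * n) := Real.rpow_pos_of_pos hQ0 _
    have hextra : 36 * (n : ℝ) ^ 4 * (4 * (n : ℝ) ^ 2 / Q ^ u) ≤ (n : ℝ) ^ (C + 9) *
        (Q ^ (-(j : ℝ) / 16) + Q ^ (-(2 * c) * n)) :=
      extra_num hQ0 hn100 (by linarith) (add_pos hy3 hy4) hunum
    have hsum2 := sum2_num (C := C) hn100 (add_pos hy3 hy4)
    have hS1sq : S1 ^ 2 ≤ (Q ^ n) ^ 2 * ((n : ℝ) ^ (C + 10) *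
        (Q ^ (-(j : ℝ) / 16) + Q ^ (-(2 * c) * n))) := by
      refine hmain.trans (mul_le_mul_of_nonneg_left ?_ (by positivity))
      exact (add_le_add hnum hextra).trans hsum2
    have hS1abs : |S1| ≤ Q ^ n * ((n : ℝ) ^ (C + 10) * (Q ^ (-(j : ℝ) / 32) + Q ^ (-c * n))) := by
      apply abs_le_of_sq_le_sq _ (by positivity)
      refine hS1sq.trans ?_
      rw [mul_pow (Q ^ n)]
      apply mul_le_mul_of_nonneg_left _ (by positivity)
      rw [mul_pow]
      apply mul_le_mul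
      · have h1 : (1 : ℝ) ≤ (n : ℝ) ^ (C + 10) := one_le_pow₀ (by linarith)
        exact le_self_pow₀ h1 (by norm_num)
      · have e1' : Q ^ (-(j : ℝ) / 16) = (Q ^ (-(j : ℝ) / 32)) ^ 2 := by
          rw [← Real.rpow_natCast, ← Real.rpow_mul hQ0.le]; congr 1; push_cast; ring
        have e2' : Q ^ (-(2 * c) * n) = (Q ^ (-c * n)) ^ 2 := by
          rw [← Real.rpow_natCast, ← Real.rpow_mul hQ0.le]; congr 1; push_cast; ring
        rw [e1', e2']
        nlinarith [mul_pos hy1 hy2]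
      · positivity
      · positivity
    refine hS1abs.trans (le_of_eq ?_)
    ring

end Pool.Agent.H527.PT
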