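import Pool.Agent.H527.PT.Stm

/-!
Project PT (helper527), task VNE: the discriminant does not vanish (helper823).
-/

set_option autoImplicit false

namespace Pool.Agent.H527.PT

open Polynomial

namespace VNEAux

theorem dvd_of_primes {K : Type} [Field K] {A A' : K[X]} (hA0 : A ≠ 0) (hsq : Squarefree A)
    (h : ∀ P : K[X], Irreducible P → P ∣ A → P ∣ A') : A ∣ A' := by
  classical
  obtain ⟨B, hB⟩ := EuclideanDomain.gcd_dvd_left A A'
  have hBu : IsUnit B := by
    by_contra hu
    have hB0 : B ≠ 0 := by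
      rintro rfl
      rw [mul_zero] at hB
      exact hA0 hB
    obtain ⟨P, hP, hPB⟩ := WfDvdMonoid.exists_irreducible_factor hu hB0
    have hPA : P ∣ A := by
      rw [hB]
      exact hPB.mul_left _
    have hPG : P ∣ EuclideanDomain.gcd A A' := EuclideanDomain.dvd_gcd hPA (h P hP hPA)
    have h2 : P * P ∣ A := by
      rw [hB]
      exact mul_dvd_mul hPG hPB
    exact hP.not_isUnit (hsq P h2)
  have h1 : A ∣ EuclideanDomain.gcd A A' := by
    obtain ⟨u, rfl⟩ := hBu
    refine ⟨((u⁻¹ : (K[X])ˣ) : K[X]), ?_⟩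
    conv_rhs => rw [hB]
    rw [mul_assoc, Units.mul_inv, mul_one]
  exact h1.trans (EuclideanDomain.gcd_dvd_right A A')

theorem vne0 (K : Type) [Field K] [Fintype K] (m h A A' : K[X]) (_hm : m.Monic)
    (hmi : Irreducible m) (hA : A.Monic) (hA' : A'.Monic) (hdeg : A.natDegree = A'.natDegree)
    (hsq : Squarefree A) (hAh : IsCoprime A h) (hmA : ¬ m ∣ A) (hne : A ≠ A') :
    derivative (m * A * h) * A' ^ 2 ≠ derivative (m * A' * h) * A ^ 2 := by
  intro heq
  apply hne
  have key : A ∣ A' := by
    refine dvd_of_primes hA.ne_zero hsq (fun P hP hPA => ?_)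
    by_contra hPA'
    have hPp := hP.prime
    obtain ⟨B, rfl⟩ := hPA
    have h1 : P ∣ derivative (m * (P * B) * h) * A' ^ 2 := by
      rw [heq]
      exact (dvd_pow (dvd_mul_right P B) two_ne_zero).mul_left _
    have h2 : P ∣ derivative (m * (P * B) * h) := by
      rcases hPp.dvd_or_dvd h1 with h3 | h3
      · exact h3
      · exact absurd (hPp.dvd_of_dvd_pow h3) hPA'
    have h3 : derivative (m * (P * B) * h) =
        derivative P * (m * B * h) + P * derivative (m * B * h) := by
      have e : m * (P * B) * h = P * (m * B * h) := by ring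
      rw [e, derivative_mul]
    rw [h3] at h2
    have h4 : P ∣ derivative P * (m * B * h) := (dvd_add_left (dvd_mul_right P _)).1 h2
    rcases hPp.dvd_or_dvd h4 with h5 | h5
    · have h6 : P.Separable := PerfectField.separable_of_irreducible hP
      exact hP.not_isUnit (h6.isUnit_of_dvd' dvd_rfl h5)
    · rcases hPp.dvd_or_dvd h5 with h6 | h6
      · rcases hPp.dvd_or_dvd h6 with h7 | h7
        · have h8 : Associated P m := hP.associated_of_dvd hmi h7
          exact hmA (h8.symm.dvd.trans (dvd_mul_right P B))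
        · exact hP.not_isUnit (hsq P (mul_dvd_mul_left P h7))
      · exact hP.not_isUnit (hAh.isUnit_of_dvd' (dvd_mul_right P B) h6)
  exact (Polynomial.eq_of_monic_of_dvd_of_natDegree_le hA hA' key hdeg.ge).symm

end VNEAux

theorem vne : S_vne := by
  intro K _ _ _ m h A A' hm hmi hA hA' hdeg hsq _ hAh _ hmA _ hne
  exact VNEAux.vne0 K m h A A' hm hmi hA hA' hdeg hsq hAh hmA hne

end Pool.Agent.H527.PT
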