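import Pool.Agent.H527.PT.Stm
import Pool.Agent.H251.SP.WM1

/-!
# Second moment for one multiplier, squarefree `A` (helper443 for helper527, adapted from
`Pool/Agent/H251/SP/WM1.lean`)
-/

set_option autoImplicit false

namespace Pool.Agent.H527.PT

open Polynomial Finset
open scoped Classical
open Pool.Agent.H694.Typ
open Pool.Agent.H251.SP
open Pool.Agent.H251.SP.WM1L

namespace WM1Aux

section char2

variable {K : Type} [Field K] [Fintype K]

theorem not_dvd_of_deg' {i l : ℕ} (hil : l < i) {P A : K[X]} (hP : P ∈ Irn K i) (hA : A.Monic)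
    (hAd : A.natDegree = l) : ¬ P ∣ A := by
  intro h
  have h1 := natDegree_le_of_dvd h hA.ne_zero
  rw [(mem_Irn.1 hP).2.1, hAd] at h1
  omega

theorem VV_deg' {j u n a : ℕ} (huj : u < j) (hja : j < a) (han : 4 * a ≤ n) {m h A A' : K[X]}
    (hm : m ∈ Irn K u) (dA : A.natDegree = j) (dA' : A'.natDegree = j) (hh : h.natDegree < n) :
    (VV m h A A').natDegree ≤ 2 * n := by
  have dm := (mem_Irn.1 hm).2.1
  have key : ∀ B B' : K[X], B.natDegree = j → B'.natDegree = j →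
      (derivative (m * B * h) * B' ^ 2).natDegree ≤ 2 * n := by
    intro B B' hB hB'
    have g1 : (derivative (m * B * h)).natDegree ≤ u + j + n := by
      refine (natDegree_derivative_le _).trans ?_
      have g2 := natDegree_mul_le (p := m * B) (q := h)
      have g3 := natDegree_mul_le (p := m) (q := B)
      omega
    have g4 := natDegree_mul_le (p := derivative (m * B * h)) (q := B' ^ 2)
    have g5 := natDegree_pow_le (p := B') (n := 2)
    rw [hB'] at g5
    omega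
  unfold VV
  refine (natDegree_sub_le _ _).trans (max_le (key A A' dA dA') (key A' A dA' dA))

variable [CharP K 2]

theorem card_VV' (hv : S_vne) {j u n a : ℕ} (huj : u < j) (hja : j < a) (han : 4 * a ≤ n)
    {m h : K[X]} (hm : m ∈ Irn K u) (hh : h.natDegree < n) {S : Finset K[X]} (hS : Adm j h S)
    (hSm : ∀ A ∈ S, ¬ m ∣ A) {A A' : K[X]} (hA : A ∈ S) (hA' : A' ∈ S) (hne : A ≠ A') :
    ((Irn K a).filter (fun P => P ∣ VV m h A A')).card ≤ 2 * n := by
  obtain ⟨a1, a2, a3, a4⟩ := hS A hA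
  obtain ⟨b1, b2, b3, b4⟩ := hS A' hA'
  have hVV : VV m h A A' ≠ 0 := by
    unfold VV
    exact sub_ne_zero.2 (hv K m h A A' (mem_Irn.1 hm).1 (mem_Irn.1 hm).2.2 a1 b1 (a2.trans b2.symm)
      a3 b3 a4 b4 (hSm A hA) (hSm A' hA') hne)
  refine le_trans (Finset.card_le_card ?_) ((card_dvd_e a hVV).trans
    (VV_deg' huj hja han hm a2 b2 hh))
  intro P hP
  rw [mem_filter, mem_Irn] at hP
  rw [mem_filter, mem_PU]
  exact ⟨⟨hP.1.1, hP.1.2.2, hP.1.2.1.le⟩, hP.2⟩

theorem gw_eq' {a j : ℕ} (hja : j < a) {m A h f : K[X]} (hA : A.Monic) (hAd : A.natDegree = j)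
    (hν : ((Irn K a).card : ℝ) / (Fintype.card K : ℝ) ^ a ≠ 0) :
    Gw a m A h f - 1 = (((Irn K a).card : ℝ) / (Fintype.card K : ℝ) ^ a)⁻¹ *
      dsc a (rho m h A) (sg m f) := by
  have h1 : ((Irn K a).filter (fun P => P ∣ Ds m A h f)) =
      (Irn K a).filter (fun P => P ∣ sg m f - rho m h A P) := by
    refine Finset.filter_congr fun P hP => ?_
    have hPA := not_dvd_of_deg' hja hP hA hAd
    rw [Ds_eq, sg_spec]
    exact dvd_iff (mem_Irn.1 hP).2.2 hPA (rho_spec (mem_Irn.1 hP).2.2 hPA)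
  unfold Gw dsc
  rw [h1, Finset.sum_sub_distrib, Finset.sum_boole, Finset.sum_const, nsmul_eq_mul, mul_one_div,
    mul_sub, inv_mul_cancel₀ hν, div_eq_inv_mul _ (((Irn K a).card : ℝ) / (Fintype.card K : ℝ) ^ a)]

omit [CharP K 2] in
theorem card_S_le' {j : ℕ} {h : K[X]} {S : Finset K[X]} (hS : Adm j h S) :
    (S.card : ℝ) ≤ (Fintype.card K : ℝ) ^ j := by
  have h1 : S.card ≤ (Mn K j).card := by
    refine Finset.card_le_card fun A hA => ?_
    rw [mem_Mn]
    exact ⟨(hS A hA).1, (hS A hA).2.1⟩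
  rw [card_Mn] at h1
  exact_mod_cast h1

theorem pairs' (hv : S_vne) {j u n a : ℕ} (huj : u < j) (hja : j < a) (han : 4 * a ≤ n)
    {m h : K[X]} (hm : m ∈ Irn K u) (hh : h.natDegree < n) (S : Finset K[X])
    (hS : Adm j h S) (hSm : ∀ A ∈ S, ¬ m ∣ A) :
    ∑ P ∈ Irn K a, ((univ.filter (fun p : S × S => P ∣ rho m h p.1 P - rho m h p.2 P)).card : ℝ) ≤
      (Fintype.card K : ℝ) ^ (j + a) * (1 + 2 * n) := by
  have hq2 : (2 : ℝ) ≤ (Fintype.card K : ℝ) := q_ge
  have e1 : ∑ P ∈ Irn K a, ((univ.filter (fun p : S × S =>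
      P ∣ rho m h p.1 P - rho m h p.2 P)).card : ℝ) = ∑ p : S × S,
      (((Irn K a).filter (fun P => P ∣ rho m h p.1 P - rho m h p.2 P)).card : ℝ) := by
    simp_rw [Finset.card_filter]
    push_cast
    exact Finset.sum_comm
  rw [e1]
  have h2 : ∀ p : S × S, (((Irn K a).filter (fun P =>
      P ∣ rho m h p.1 P - rho m h p.2 P)).card : ℝ) ≤
      (if p.1 = p.2 then (Fintype.card K : ℝ) ^ a else 0) + 2 * n := by
    rintro ⟨x, y⟩
    by_cases hxy : x = y
    · rw [if_pos hxy]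
      have h3 := irn_card_le (K := K) a
      have h4 : (((Irn K a).filter (fun P => P ∣ rho m h x P - rho m h y P)).card : ℝ) ≤
          ((Irn K a).card : ℝ) := by exact_mod_cast Finset.card_filter_le _ _
      have h5 : (0 : ℝ) ≤ 2 * n := by positivity
      exact h4.trans (h3.trans (le_add_of_nonneg_right h5))
    · rw [if_neg hxy, zero_add]
      have hne : (x : K[X]) ≠ y := fun hh => hxy (Subtype.ext hh)
      have h3 := card_VV' hv huj hja han hm hh hS hSm x.2 y.2 hne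
      have h4 : ((Irn K a).filter (fun P => P ∣ rho m h x P - rho m h y P)).card ≤
          ((Irn K a).filter (fun P => P ∣ VV m h x y)).card := by
        refine Finset.card_le_card ?_
        intro P hP
        rw [mem_filter] at hP ⊢
        refine ⟨hP.1, ?_⟩
        exact dvd_VV (mem_Irn.1 hP.1).2.2
          (not_dvd_of_deg' hja hP.1 (hS _ x.2).1 (hS _ x.2).2.1)
          (not_dvd_of_deg' hja hP.1 (hS _ y.2).1 (hS _ y.2).2.1) hP.2
      exact_mod_cast h4.trans h3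
  refine (Finset.sum_le_sum fun p _ => h2 p).trans ?_
  rw [Fintype.sum_prod_type]
  have h3 : ∀ x : S, ∑ y : S, ((if (x, y).1 = (x, y).2 then (Fintype.card K : ℝ) ^ a else 0) +
      2 * (n : ℝ)) = (Fintype.card K : ℝ) ^ a + S.card * (2 * n) := by
    intro x
    rw [Finset.sum_add_distrib, Finset.sum_const, nsmul_eq_mul, Finset.card_univ,
      Fintype.card_coe, Finset.sum_ite_eq, if_pos (mem_univ _)]
  rw [Finset.sum_congr rfl (fun x _ => h3 x), Finset.sum_const, nsmul_eq_mul, Finset.card_univ,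
    Fintype.card_coe]
  have h4 : (S.card : ℝ) ≤ (Fintype.card K : ℝ) ^ j := card_S_le' hS
  have h5 : (Fintype.card K : ℝ) ^ j ≤ (Fintype.card K : ℝ) ^ a :=
    pow_le_pow_right₀ (by linarith) hja.le
  have h6 : (0 : ℝ) ≤ S.card := by positivity
  calc (S.card : ℝ) * ((Fintype.card K : ℝ) ^ a + S.card * (2 * n)) ≤
      (Fintype.card K : ℝ) ^ j * ((Fintype.card K : ℝ) ^ a + (Fintype.card K : ℝ) ^ a * (2 * n)) := by
        have : (S.card : ℝ) ≤ (Fintype.card K : ℝ) ^ a := h4.trans h5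
        gcongr
    _ = _ := by
        rw [pow_add]
        ring

end char2

end WM1Aux

open WM1Aux in
/-- **Task WM1.** -/
theorem awm1 : S_awm1 := by
  intro hv hl K _ _ _
  refine ⟨3, ?_⟩
  intro n L j u a h m S hn hL hu huj hja han hh0 hhn hm hS hSm
  have hq2 : (2 : ℝ) ≤ (Fintype.card K : ℝ) := q_ge
  have hν1 : 1 / (2 * (a : ℝ)) ≤ ((Irn K a).card : ℝ) / (Fintype.card K : ℝ) ^ a := by
    have h1 := irn_wt_ge (k := K) (j := a) (by omega)
    rw [sum_congr rfl (fun P hP => by rw [(mem_Irn.1 hP).2.1]), sum_const, nsmul_eq_mul] at h1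
    rw [div_eq_mul_inv _ ((Fintype.card K : ℝ) ^ a)]
    exact h1
  have ha0 : (0 : ℝ) < a := by exact_mod_cast (show 0 < a by omega)
  have hν0 : 0 < ((Irn K a).card : ℝ) / (Fintype.card K : ℝ) ^ a :=
    lt_of_lt_of_le (by positivity) hν1
  set ν : ℝ := ((Irn K a).card : ℝ) / (Fintype.card K : ℝ) ^ a with hν
  set N := max (L + u) (2 * a) with hN
  have e1 : ∀ f ∈ Mn K (n - j), (∑ A ∈ S, (Gw a m A h f - 1)) ^ 2 =
      (ν⁻¹) ^ 2 * (∑ A ∈ S, dsc a (rho m h A) (sg m f)) ^ 2 := by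
    intro f _
    rw [← mul_pow, Finset.mul_sum]
    congr 1
    refine Finset.sum_congr rfl fun A hA => ?_
    exact gw_eq' hja (hS A hA).1 (hS A hA).2.1 hν0.ne'
  rw [Finset.sum_congr rfl e1, ← Finset.mul_sum]
  have e2 := sum_le hn hL (by omega) (le_max_left _ _ : L + u ≤ N) hm
    (fun σ => (∑ A ∈ S, dsc a (rho m h A) σ) ^ 2) (fun σ => sq_nonneg _)
  have e3 := hl K S a N (fun A => rho m h A) (by omega) (le_max_right _ _)
  rw [finsum_TT] at e3
  have e4 : ∀ σ : K[X], ∑ i : S, dsc a (rho m h i) σ = ∑ A ∈ S, dsc a (rho m h A) σ := fun σ =>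
    Finset.sum_coe_sort S (fun A => dsc a (rho m h A) σ)
  simp_rw [e4] at e3
  have e5 := pairs' hv huj hja han hm hhn S hS hSm
  set X := ∑ σ ∈ TT K N, (∑ A ∈ S, dsc a (rho m h A) σ) ^ 2 with hX
  have hqa : (0 : ℝ) < (Fintype.card K : ℝ) ^ a := by positivity
  have e6 : X ≤ (Fintype.card K : ℝ) ^ (N + j) * (1 + 2 * n) := by
    refine e3.trans ((mul_le_mul_of_nonneg_left e5 (by positivity)).trans (le_of_eq ?_))
    rw [pow_add _ j a, pow_add _ N j]
    field_simp
  have e7 : (ν⁻¹) ^ 2 ≤ (2 * (a : ℝ)) ^ 2 := by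
    have h1 : ν⁻¹ ≤ 2 * a := by
      rw [inv_le_comm₀ hν0 (by positivity)]
      rw [one_div] at hν1
      exact hν1
    exact pow_le_pow_left₀ (by positivity) h1 2
  have e8 : (ν⁻¹) ^ 2 * ∑ f ∈ Mn K (n - j), (∑ A ∈ S, dsc a (rho m h A) (sg m f)) ^ 2 ≤
      (2 * (a : ℝ)) ^ 2 * ((Fintype.card K : ℝ) ^ L * ((Fintype.card K : ℝ) ^ (N + j) *
        (1 + 2 * n))) := by
    refine mul_le_mul e7 (e2.trans ?_) (Finset.sum_nonneg fun _ _ => sq_nonneg _) (by positivity)
    exact mul_le_mul_of_nonneg_left e6 (by positivity)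
  refine e8.trans ?_
  have hn1 : (1 : ℝ) ≤ n := by exact_mod_cast (show 1 ≤ n by omega)
  have han' : 4 * (a : ℝ) ≤ n := by exact_mod_cast han
  have e9 : (2 * (a : ℝ)) ^ 2 * (1 + 2 * n) ≤ (n : ℝ) ^ 3 := by
    have h1 : (2 * (a : ℝ)) ^ 2 ≤ n ^ 2 / 4 := by nlinarith
    calc (2 * (a : ℝ)) ^ 2 * (1 + 2 * n) ≤ n ^ 2 / 4 * (4 * n) := by
          gcongr
          linarith
      _ = _ := by ring
  have e10 : (Fintype.card K : ℝ) ^ (L + (N + j)) ≤
      (Fintype.card K : ℝ) ^ (n + j) * (Fintype.card K : ℝ) ^ (-(j : ℝ) / 2) := by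
    rw [← Real.rpow_natCast, ← Real.rpow_natCast, ← Real.rpow_add (by linarith)]
    refine Real.rpow_le_rpow_of_exponent_le (by linarith) ?_
    have h1 : 2 * (L + (N + j)) ≤ 2 * n + j := by omega
    have h2 : 2 * ((L + (N + j) : ℕ) : ℝ) ≤ 2 * n + j := by exact_mod_cast h1
    push_cast at h2 ⊢
    linarith
  calc (2 * (a : ℝ)) ^ 2 * ((Fintype.card K : ℝ) ^ L * ((Fintype.card K : ℝ) ^ (N + j) *
        (1 + 2 * n))) = ((2 * (a : ℝ)) ^ 2 * (1 + 2 * n)) *
        (Fintype.card K : ℝ) ^ (L + (N + j)) := by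
        rw [pow_add _ L]
        ring
    _ ≤ (n : ℝ) ^ 3 * ((Fintype.card K : ℝ) ^ (n + j) *
        (Fintype.card K : ℝ) ^ (-(j : ℝ) / 2)) := by
        gcongr
    _ = _ := by ring

end Pool.Agent.H527.PT
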