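import Pool.Agent.H527.PT.Stm
import Pool.Agent.H251.SP.Wm2

/-!
# Project PT (helper527), task WM2 (helper297): the second moment for two multipliers, `A` squarefree

Adapted from `Pool/Agent/H251/SP/Wm2.lean` (helper800).
-/

set_option autoImplicit false

namespace Pool.Agent.H527.PT

namespace WM2Aux

open Polynomial Finset
open scoped Classical
open Pool.Agent.H251.SP
open Pool.Agent.H694.Typ (Mn Irn mem_Mn mem_Irn card_Mn PU mem_PU wt q_ge irn_wt_ge card_dvd_e
  coprime_of_ne)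

variable {K : Type} [Field K] [Fintype K] [CharP K 2]

omit [Fintype K] [CharP K 2] in
theorem cop {a j : ℕ} {A P : K[X]} (ha : j < a) (hA : A.Monic) (hAj : A.natDegree = j)
    (hP : Irreducible P) (hPa : P.natDegree = a) : IsCoprime A P := by
  refine ((hP.coprime_iff_not_dvd).2 fun hd => ?_).symm
  have := natDegree_le_of_dvd hd hA.ne_zero
  omega

theorem gw {a j : ℕ} {m A h f : K[X]} (ha : j < a) (hA : A.Monic) (hAj : A.natDegree = j)
    (hν : ((Irn K a).card : ℝ) / (Fintype.card K : ℝ) ^ a ≠ 0) :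
    Gw a m A h f - 1 = dsc a (wm2_rho m A h) (wm2_s (m * f)) /
      (((Irn K a).card : ℝ) / (Fintype.card K : ℝ) ^ a) := by
  have h1 : ((((Irn K a).filter (fun P => P ∣ Ds m A h f)).card : ℕ) : ℝ) =
      ∑ P ∈ Irn K a, (if P ∣ wm2_s (m * f) - wm2_rho m A h P then (1 : ℝ) else 0) := by
    rw [Finset.card_filter]
    push_cast
    refine Finset.sum_congr rfl fun P hP => ?_
    have hco : IsCoprime A P := cop ha hA hAj (mem_Irn.1 hP).2.2 (mem_Irn.1 hP).2.1
    have hiff := wm2_dvd (m := m) (h := h) (f := f) (mem_Irn.1 hP).2.2 hco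
    by_cases h3 : P ∣ Ds m A h f
    · rw [if_pos h3, if_pos (hiff.1 h3)]
    · rw [if_neg h3, if_neg (fun h4 => h3 (hiff.2 h4))]
  have h2 : dsc a (wm2_rho m A h) (wm2_s (m * f)) =
      ((((Irn K a).filter (fun P => P ∣ Ds m A h f)).card : ℕ) : ℝ) -
        ((Irn K a).card : ℝ) / (Fintype.card K : ℝ) ^ a := by
    unfold dsc
    rw [Finset.sum_sub_distrib, h1, Finset.sum_const, nsmul_eq_mul, mul_one_div]
  rw [h2, sub_div, div_self hν]
  rfl

theorem count (hvne : S_vne) {a j n u : ℕ} {m A A' h : K[X]} (hu : u < j) (ha : j < a)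
    (han : 4 * a ≤ n) (hm : m ∈ Irn K u)
    (hA : A.Monic ∧ A.natDegree = j ∧ Squarefree A ∧ IsCoprime A h)
    (hA' : A'.Monic ∧ A'.natDegree = j ∧ Squarefree A' ∧ IsCoprime A' h) (hne : A ≠ A')
    (hmA : ¬ m ∣ A) (hmA' : ¬ m ∣ A') (hh : h.natDegree < n) :
    (((Irn K a).filter (fun P => P ∣ wm2_rho m A h P - wm2_rho m A' h P)).card : ℝ) ≤ 4 * n := by
  rw [mem_Irn] at hm
  have hV : derivative (m * A * h) * A' ^ 2 - derivative (m * A' * h) * A ^ 2 ≠ 0 :=
    sub_ne_zero.2 (hvne K m h A A' hm.1 hm.2.2 hA.1 hA'.1 (hA.2.1.trans hA'.2.1.symm) hA.2.2.1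
      hA'.2.2.1 hA.2.2.2 hA'.2.2.2 hmA hmA' hne)
  have hsub : (Irn K a).filter (fun P => P ∣ wm2_rho m A h P - wm2_rho m A' h P) ⊆
      (PU K a).filter (fun P => P ∣
        derivative (m * A * h) * A' ^ 2 - derivative (m * A' * h) * A ^ 2) := by
    intro P hP
    rw [Finset.mem_filter] at hP ⊢
    obtain ⟨hP, hd⟩ := hP
    rw [mem_Irn] at hP
    refine ⟨mem_PU.2 ⟨hP.1, hP.2.2, hP.2.1.le⟩, ?_⟩
    exact wm2_rho_sub (cop ha hA.1 hA.2.1 hP.2.2 hP.2.1) (cop ha hA'.1 hA'.2.1 hP.2.2 hP.2.1) hd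
  have h1 := (Finset.card_le_card hsub).trans (card_dvd_e a hV)
  have hdeg : ∀ B C : K[X], B.natDegree = j → C.natDegree = j →
      (derivative (m * B * h) * C ^ 2).natDegree ≤ 4 * n := by
    intro B C hB hC
    have e1 : (derivative (m * B * h)).natDegree ≤ (m * B * h).natDegree :=
      (natDegree_derivative_le _).trans (Nat.sub_le _ _)
    have e2 : (m * B * h).natDegree ≤ m.natDegree + B.natDegree + h.natDegree :=
      natDegree_mul_le.trans (Nat.add_le_add_right natDegree_mul_le _)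
    have e3 : (C ^ 2).natDegree = 2 * C.natDegree := natDegree_pow _ _
    have e4 : (derivative (m * B * h) * C ^ 2).natDegree ≤
      (derivative (m * B * h)).natDegree + (C ^ 2).natDegree := natDegree_mul_le
    omega
  have h3 : (derivative (m * A * h) * A' ^ 2 - derivative (m * A' * h) * A ^ 2).natDegree ≤
      4 * n := (natDegree_sub_le _ _).trans
        (max_le (hdeg A A' hA.2.1 hA'.2.1) (hdeg A' A hA'.2.1 hA.2.1))
  exact_mod_cast h1.trans h3

/-- the number of the pairs -/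
theorem pairs (hvne : S_vne) {a j n u : ℕ} {m m' h : K[X]} {S : Finset K[X]} (hu : u < j)
    (ha : j < a) (han : 4 * a ≤ n) (hm : m ∈ Irn K u) (hm' : m' ∈ Irn K u) (hh : h.natDegree < n)
    (hS : Adm j h S) (hmS : ∀ A ∈ S, ¬ m ∣ A) (hmS' : ∀ A ∈ S, ¬ m' ∣ A) :
    ∑ P ∈ Irn K a, ∑ Q ∈ Irn K a,
      ((univ.filter (fun p : {A // A ∈ S} ×
          {A // A ∈ S} =>
        P ∣ wm2_rho m p.1.1 h P - wm2_rho m p.2.1 h P ∧
        Q ∣ wm2_rho m' p.1.1 h Q - wm2_rho m' p.2.1 h Q)).card : ℝ) ≤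
      (Fintype.card K : ℝ) ^ j * ((Fintype.card K : ℝ) ^ a) ^ 2 +
        ((Fintype.card K : ℝ) ^ j) ^ 2 * (4 * n) ^ 2 := by
  have e1 : ∀ P Q : K[X], ((univ.filter (fun p : {A // A ∈ S} ×
          {A // A ∈ S} =>
        P ∣ wm2_rho m p.1.1 h P - wm2_rho m p.2.1 h P ∧
        Q ∣ wm2_rho m' p.1.1 h Q - wm2_rho m' p.2.1 h Q)).card : ℝ) =
      ∑ p : {A // A ∈ S} ×
          {A // A ∈ S},
        (if P ∣ wm2_rho m p.1.1 h P - wm2_rho m p.2.1 h P then (1 : ℝ) else 0) *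
        (if Q ∣ wm2_rho m' p.1.1 h Q - wm2_rho m' p.2.1 h Q then (1 : ℝ) else 0) := by
    intro P Q
    rw [Finset.card_filter]
    push_cast
    refine Finset.sum_congr rfl fun p _ => ?_
    by_cases h1 : P ∣ wm2_rho m p.1.1 h P - wm2_rho m p.2.1 h P
    · by_cases h3 : Q ∣ wm2_rho m' p.1.1 h Q - wm2_rho m' p.2.1 h Q
      · rw [if_pos ⟨h1, h3⟩, if_pos h1, if_pos h3, mul_one]
      · rw [if_neg (fun h4 => h3 h4.2), if_pos h1, if_neg h3, mul_zero]
    · rw [if_neg (fun h4 => h1 h4.1), if_neg h1, zero_mul]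
  have e2 : ∑ P ∈ Irn K a, ∑ Q ∈ Irn K a,
      ((univ.filter (fun p : {A // A ∈ S} ×
          {A // A ∈ S} =>
        P ∣ wm2_rho m p.1.1 h P - wm2_rho m p.2.1 h P ∧
        Q ∣ wm2_rho m' p.1.1 h Q - wm2_rho m' p.2.1 h Q)).card : ℝ) =
      ∑ p : {A // A ∈ S} ×
          {A // A ∈ S},
        (((Irn K a).filter (fun P => P ∣ wm2_rho m p.1.1 h P - wm2_rho m p.2.1 h P)).card : ℝ) *
        (((Irn K a).filter (fun Q => Q ∣ wm2_rho m' p.1.1 h Q - wm2_rho m' p.2.1 h Q)).card : ℝ) := by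
    rw [Finset.sum_congr rfl fun P _ => Finset.sum_congr rfl fun Q _ => e1 P Q]
    rw [Finset.sum_congr rfl fun P _ => Finset.sum_comm, Finset.sum_comm]
    refine Finset.sum_congr rfl fun p _ => ?_
    rw [Finset.card_filter, Finset.card_filter]
    push_cast
    rw [Finset.sum_mul_sum]
  rw [e2]
  have hI : (Fintype.card {A // A ∈ S} : ℝ) ≤
      (Fintype.card K : ℝ) ^ j := by
    rw [Fintype.card_coe]
    have hsub : S ⊆ Mn K j := fun A hA => mem_Mn.2 ⟨(hS A hA).1, (hS A hA).2.1⟩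
    have hc := Finset.card_le_card hsub
    rw [card_Mn] at hc
    exact_mod_cast hc
  have hb : ∀ p : {A // A ∈ S} ×
          {A // A ∈ S},
        (((Irn K a).filter (fun P => P ∣ wm2_rho m p.1.1 h P - wm2_rho m p.2.1 h P)).card : ℝ) *
        (((Irn K a).filter (fun Q => Q ∣ wm2_rho m' p.1.1 h Q - wm2_rho m' p.2.1 h Q)).card : ℝ) ≤
        (if p.1 = p.2 then ((Fintype.card K : ℝ) ^ a) ^ 2 else 0) + (4 * (n : ℝ)) ^ 2 := by
    intro p
    by_cases hp : p.1 = p.2
    · rw [if_pos hp, pow_two ((Fintype.card K : ℝ) ^ a)]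
      have h1 : ∀ (C : K[X] → Prop), (((Irn K a).filter C).card : ℝ) ≤
          (Fintype.card K : ℝ) ^ a := by
        intro C
        refine le_trans ?_ (wm2_Irn_le a)
        exact_mod_cast Finset.card_le_card (Finset.filter_subset _ _)
      have h3 := mul_le_mul (h1 (fun P => P ∣ wm2_rho m p.1.1 h P - wm2_rho m p.2.1 h P))
        (h1 (fun Q => Q ∣ wm2_rho m' p.1.1 h Q - wm2_rho m' p.2.1 h Q)) (Nat.cast_nonneg _)
        (by positivity)
      have h4 : (0 : ℝ) ≤ (4 * (n : ℝ)) ^ 2 := by positivity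
      linarith
    · rw [if_neg hp, zero_add, pow_two (4 * (n : ℝ))]
      have hne : p.1.1 ≠ p.2.1 := fun h1 => hp (Subtype.ext h1)
      exact mul_le_mul (count hvne hu ha han hm (hS _ p.1.2) (hS _ p.2.2) hne (hmS _ p.1.2)
        (hmS _ p.2.2) hh) (count hvne hu ha han hm' (hS _ p.1.2) (hS _ p.2.2) hne (hmS' _ p.1.2)
        (hmS' _ p.2.2) hh) (Nat.cast_nonneg _) (by positivity)
  refine (Finset.sum_le_sum fun p _ => hb p).trans ?_
  rw [Finset.sum_add_distrib, Finset.sum_const, Finset.card_univ, Fintype.card_prod, nsmul_eq_mul]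
  have e3 : ∑ p : {A // A ∈ S} ×
          {A // A ∈ S},
        (if p.1 = p.2 then ((Fintype.card K : ℝ) ^ a) ^ 2 else 0) =
      (Fintype.card {A // A ∈ S} : ℝ) *
        ((Fintype.card K : ℝ) ^ a) ^ 2 := by
    rw [Fintype.sum_prod_type]
    simp only [Finset.sum_ite_eq, Finset.mem_univ, if_true]
    rw [Finset.sum_const, Finset.card_univ, nsmul_eq_mul]
  rw [e3]
  have hI0 : (0 : ℝ) ≤ (Fintype.card {A // A ∈ S} : ℝ) :=
    Nat.cast_nonneg _
  apply add_le_add
  · exact mul_le_mul_of_nonneg_right hI (by positivity)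
  · push_cast
    rw [pow_two ((Fintype.card K : ℝ) ^ j)]
    exact mul_le_mul_of_nonneg_right (mul_le_mul hI hI hI0 (by positivity)) (by positivity)

end WM2Aux

open Polynomial Finset WM2Aux in
open scoped Classical in
open Pool.Agent.H251.SP in
open Pool.Agent.H694.Typ (Mn Irn mem_Mn mem_Irn card_Mn PU mem_PU wt q_ge irn_wt_ge card_dvd_e
  coprime_of_ne) in
theorem awm2 : S_awm2 := by
  intro hvne hl K _ _ _
  refine ⟨15 + Fintype.card K, ?_⟩
  intro n L j u a h m m' S hL hL1 hu4 huj hja han hh0 hh hm hm' hmm hS hmS hmS'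
  have hq2 : 2 ≤ Fintype.card K := Fintype.one_lt_card
  obtain ⟨ν, hνd⟩ : ∃ ν : ℝ, ν = ((Irn K a).card : ℝ) / (Fintype.card K : ℝ) ^ a := ⟨_, rfl⟩
  have hν : 1 / (2 * (a : ℝ)) ≤ ν := by
    have h1 := irn_wt_ge (k := K) (j := a) (by omega)
    rw [sum_congr rfl (fun P hP => by rw [(mem_Irn.1 hP).2.1]), sum_const, nsmul_eq_mul] at h1
    rw [hνd, div_eq_mul_inv]
    exact h1
  have ha0 : (0 : ℝ) < a := by exact_mod_cast (show 0 < a by omega)
  have hν0 : 0 < ν := lt_of_lt_of_le (by positivity) hν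
  obtain ⟨N, hN⟩ : ∃ N, N = max (L + u) (2 * a) := ⟨_, rfl⟩
  refine le_trans ?_ (wm2_num hq2 hL hu4 huj hja han hν hN)
  -- rewrite the summand
  have e1 : ∀ f : K[X], (∑ A ∈ S,
      (Gw a m A h f - 1) * (Gw a m' A h f - 1)) ^ 2 = (1 / ν) ^ 4 *
      (∑ i : {A // A ∈ S},
        dsc a (wm2_rho m i.1 h) (wm2_s (m * f)) * dsc a (wm2_rho m' i.1 h) (wm2_s (m' * f))) ^ 2 := by
    intro f
    have e2 : ∑ A ∈ S,
        (Gw a m A h f - 1) * (Gw a m' A h f - 1) = (1 / ν) ^ 2 *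
        ∑ i : {A // A ∈ S},
          dsc a (wm2_rho m i.1 h) (wm2_s (m * f)) * dsc a (wm2_rho m' i.1 h) (wm2_s (m' * f)) := by
      rw [Finset.mul_sum, ← Finset.sum_coe_sort]
      refine Finset.sum_congr rfl fun i _ => ?_
      have hi := hS _ i.2
      rw [gw hja hi.1 hi.2.1 (by rw [← hνd]; exact hν0.ne'),
        gw hja hi.1 hi.2.1 (by rw [← hνd]; exact hν0.ne'), ← hνd]
      field_simp
    rw [e2]
    ring
  rw [Finset.sum_congr rfl fun f _ => e1 f, ← Finset.mul_sum]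
  apply mul_le_mul_of_nonneg_left _ (by positivity)
  have h1 := hl K {A // A ∈ S} a N
    (fun i => wm2_rho m i.1 h) (fun i => wm2_rho m' i.1 h) (by omega)
    (by rw [hN]; exact le_max_right _ _)
  have h2 := pairs hvne huj hja han hm hm' hh hS hmS hmS'
  refine le_trans ?_ (h1.trans ?_)
  · rw [wm2_finsum, Finset.sum_congr rfl fun σ₁ _ => wm2_finsum N _, ← Finset.sum_product']
    refine wm2_sum_le (Mn K (n - j)) _ (fun f => (wm2_s (m * f), wm2_s (m' * f))) ?_ ?_
      (fun p => (∑ i : {A // A ∈ S},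
        dsc a (wm2_rho m i.1 h) p.1 * dsc a (wm2_rho m' i.1 h) p.2) ^ 2) (fun _ => sq_nonneg _)
    · intro f _ g _ hfg
      rw [mem_Irn] at hm hm'
      have hd : ¬ m ∣ m' := by
        intro hd
        exact hmm (eq_of_monic_of_associated hm.1 hm'.1 (hm.2.2.associated_of_dvd hm'.2.2 hd))
      exact wm2_inj hm.2.2 hd (congrArg Prod.fst hfg) (congrArg Prod.snd hfg)
    · intro f hf
      rw [mem_Mn] at hf
      rw [mem_Irn] at hm hm'
      have hdeg : ∀ M : K[X], M.natDegree = u → (wm2_s (M * f)).degree < (N : WithBot ℕ) := by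
        intro M hM
        have h3 : (M * f).natDegree ≤ 2 * (L + u - 1) + 1 := by
          refine natDegree_mul_le.trans ?_
          rw [hM, hf.2]
          omega
        refine (wm2_s_degree h3).trans_le ?_
        have h4 : L + u - 1 + 1 ≤ N := by
          rw [hN]
          refine le_trans ?_ (le_max_left _ _)
          omega
        exact_mod_cast h4
      rw [Finset.mem_product]
      exact ⟨wm2_mem_B.2 (hdeg m hm.2.1), wm2_mem_B.2 (hdeg m' hm'.2.1)⟩
  · exact mul_le_mul_of_nonneg_left h2 (by positivity)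

end Pool.Agent.H527.PT
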