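import Mathlib
import Pool.Agent.H251.SP.Final
import Pool.Agent.H527.PT.VNE
import Pool.Agent.H527.PT.WM1
import Pool.Agent.H527.PT.WM2
import Pool.Agent.H527.PT.WM
import Pool.Agent.H527.PT.TIIG
import Pool.Agent.H527.PT.DVB
import Pool.Agent.H527.PT.DEN
import Pool.Agent.H527.PT.DEC
import Pool.Agent.H527.PT.MOD
import Pool.Agent.H527.PT.LAM
import Pool.Agent.H527.PT.FIN
import Pool.Agent.H527.PT.MOB

/-!
# Power saving: assembly of project PT (helper527)
-/

namespace Pool.Agent.H527.PT

open Pool.Agent.H251.SP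

/-- Type II sums over squarefree polynomials. -/
theorem s_tiig : S_tiig := atii vne s_fb bf (awm (awm1 vne ls1) (awm2 vne ls2))

theorem s_mod : S_mod := amod s_tiig dec (aden dvb)

theorem mda_mob : S_mda Pool.Agent.H527.ME.mobF := mobPT s_mod

theorem mda_lam : S_mda Pool.Agent.H527.ME.lamF := alam s_mod dvb

end Pool.Agent.H527.PT
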